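import Pool.Agent.LibRD13.FinB

/-! MP_699cde_nt, final assembly, part C: all scales. -/

set_option autoImplicit false
set_option linter.unusedSectionVars false

namespace RD

open Finset Filter Topology

/-- harmonic sums -/
theorem harm (a b : ℕ) (ha : 1 ≤ a) (hab : a ≤ b) :
    ∑ i ∈ Ico a b, (1 : ℝ) / (i + 1) ≤ Real.log (b / a) := by
  have ha0 : (0 : ℝ) < a := by exact_mod_cast ha
  induction b, hab using Nat.le_induction with
  | base => simp
  | succ b hb ih =>
    have hb0 : (0 : ℝ) < b := lt_of_lt_of_le ha0 (by exact_mod_cast hb)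
    rw [sum_Ico_succ_top hb]
    have h1 : (1 : ℝ) / (b + 1) ≤ Real.log ((b + 1) / b) := by
      have h := Real.one_sub_inv_le_log_of_pos (by positivity : 0 < ((b : ℝ) + 1) / b)
      have h2 : 1 - (((b : ℝ) + 1) / b)⁻¹ = 1 / (b + 1) := by
        field_simp
        ring
      linarith
    have h2 : Real.log ((((b + 1 : ℕ) : ℝ)) / a) = Real.log (b / a) + Real.log ((b + 1) / b) := by
      rw [← Real.log_mul (by positivity) (by positivity)]
      congr 1
      push_cast
      field_simp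
    rw [h2]
    linarith

theorem harm0 (b : ℕ) (hb : 1 ≤ b) : ∑ i ∈ range b, (1 : ℝ) / (i + 1) ≤ 1 + Real.log b := by
  rw [range_eq_Ico, ← sum_Ico_consecutive _ (Nat.zero_le 1) hb]
  have h1 := harm 1 b le_rfl hb
  have h2 : ∑ i ∈ Ico (0 : ℕ) 1, (1 : ℝ) / ((i : ℝ) + 1) = 1 := by simp
  rw [h2]
  simpa using h1

theorem pointwise (CB δ Y : ℝ) (hCB : 0 < CB) (hδ : 0 ≤ δ) (hY : 1 ≤ Y) (a : ℕ → ℝ)
    (N i0 i1 : ℕ) (hi0 : 1 ≤ i0) (hN : 1 ≤ N) (hY2 : (N : ℝ) ≤ Y * ((i1 : ℝ) + 1))
    (hBT : ∀ i : ℕ, a i ≤ CB / (i + 1))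
    (hmid : ∀ i : ℕ, i0 ≤ i → i ≤ i1 → a i ≤ 2400 * δ / i) :
    ∑ i ∈ range N, a i
      ≤ CB * (1 + Real.log i0) + 4800 * δ * (1 + Real.log N) + CB * Real.log Y := by
  have h1 : ∀ i ∈ range N, a i ≤ (if i < i0 then CB * (1 / ((i : ℝ) + 1)) else 0)
      + 4800 * δ * (1 / ((i : ℝ) + 1)) + (if i1 < i then CB * (1 / ((i : ℝ) + 1)) else 0) := by
    intro i _
    have hb := hBT i
    rw [div_eq_mul_one_div] at hb
    have hp : 0 < CB * (1 / ((i : ℝ) + 1)) := by positivity
    have hq : 0 ≤ 4800 * δ * (1 / ((i : ℝ) + 1)) := by positivity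
    by_cases h2 : i < i0
    · rw [if_pos h2]
      by_cases h3 : i1 < i
      · rw [if_pos h3]; linarith
      · rw [if_neg h3]; linarith
    · rw [if_neg h2]
      by_cases h3 : i1 < i
      · rw [if_pos h3]; linarith
      · rw [if_neg h3]
        have h4 := hmid i (by omega) (by omega)
        have h5 : (1 : ℝ) ≤ i := by
          have : 1 ≤ i := by omega
          exact_mod_cast this
        have h6 : 2400 * δ / i ≤ 4800 * δ * (1 / ((i : ℝ) + 1)) := by
          rw [mul_one_div, div_le_div_iff₀ (by linarith) (by linarith)]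
          nlinarith
        linarith
  refine (sum_le_sum h1).trans ?_
  rw [sum_add_distrib, sum_add_distrib]
  have hA : ∑ i ∈ range N, (if i < i0 then CB * (1 / ((i : ℝ) + 1)) else 0)
      ≤ CB * (1 + Real.log i0) := by
    rw [← sum_filter]
    have h2 : (range N).filter (fun i => i < i0) ⊆ range i0 := by
      intro i hi
      rw [mem_filter] at hi
      exact mem_range.2 hi.2
    refine (sum_le_sum_of_subset_of_nonneg h2 fun i _ _ => by positivity).trans ?_
    rw [← mul_sum]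
    exact mul_le_mul_of_nonneg_left (harm0 i0 hi0) hCB.le
  have hB : ∑ i ∈ range N, 4800 * δ * (1 / ((i : ℝ) + 1)) ≤ 4800 * δ * (1 + Real.log N) := by
    rw [← mul_sum]
    exact mul_le_mul_of_nonneg_left (harm0 N hN) (by positivity)
  have hC : ∑ i ∈ range N, (if i1 < i then CB * (1 / ((i : ℝ) + 1)) else 0)
      ≤ CB * Real.log Y := by
    rw [← sum_filter]
    have h2 : (range N).filter (fun i => i1 < i) = Ico (i1 + 1) N := by
      ext i
      rw [mem_filter, mem_range, mem_Ico]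
      omega
    rw [h2, ← mul_sum]
    apply mul_le_mul_of_nonneg_left _ hCB.le
    by_cases h3 : i1 + 1 ≤ N
    · refine (harm (i1 + 1) N (by omega) h3).trans ?_
      have hN0 : (0 : ℝ) < N := by exact_mod_cast hN
      apply Real.log_le_log (by positivity)
      rw [div_le_iff₀ (by positivity)]
      push_cast
      exact hY2
    · rw [Ico_eq_empty_of_le (by omega), sum_empty]
      exact Real.log_nonneg hY
  linarith

/-- the numerical part of the count -/
theorem count_num {L w x : ℝ} (hx : x = Real.exp L) (hL : 100 ≤ L) (hw0 : w ≤ L / 32)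
    (hw : 9 * (L + 1) ≤ Real.exp (w / 2)) :
    Real.exp (L / 2) + (L + 1) * (3 * x * Real.exp (-w) + Real.exp (L / 8))
      ≤ x * Real.exp (-(w / 2)) := by
  have h1 : (L + 1) * (3 * x * Real.exp (-w)) ≤ x * Real.exp (-(w / 2)) / 3 := by
    have h2 : Real.exp (-(w / 2)) = Real.exp (-w) * Real.exp (w / 2) := by
      rw [← Real.exp_add]; congr 1; ring
    rw [h2]
    have h3 : 0 < x * Real.exp (-w) := by
      rw [hx]; positivity
    nlinarith
  have h4 : x * Real.exp (-(w / 2)) = Real.exp (L - w / 2) := by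
    rw [hx, ← Real.exp_add]; congr 1
  have h5 : Real.exp (L / 2) ≤ x * Real.exp (-(w / 2)) / 3 := by
    rw [h4]
    have h6 : Real.exp (L - w / 2) = Real.exp (L / 2) * Real.exp (L / 2 - w / 2) := by
      rw [← Real.exp_add]; congr 1; ring
    have h7 : 3 ≤ Real.exp (L / 2 - w / 2) := by
      have := Real.add_one_le_exp (L / 2 - w / 2)
      linarith
    rw [h6]
    have := Real.exp_pos (L / 2)
    nlinarith
  have h8 : (L + 1) * Real.exp (L / 8) ≤ x * Real.exp (-(w / 2)) / 3 := by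
    rw [h4]
    have h9 : L + 1 ≤ 2 * Real.exp (L / 2) := by
      have := Real.add_one_le_exp (L / 2)
      linarith
    have h10 : Real.exp (L - w / 2) = Real.exp (L / 2) * (Real.exp (L / 8) *
        Real.exp (3 * L / 8 - w / 2)) := by
      rw [← Real.exp_add, ← Real.exp_add]; congr 1; ring
    have h11 : 6 ≤ Real.exp (3 * L / 8 - w / 2) := by
      have := Real.add_one_le_exp (3 * L / 8 - w / 2)
      linarith
    rw [h10]
    have h12 := Real.exp_pos (L / 2)
    have h13 := Real.exp_pos (L / 8)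
    calc (L + 1) * Real.exp (L / 8) ≤ 2 * Real.exp (L / 2) * Real.exp (L / 8) := by gcongr
      _ = Real.exp (L / 2) * (Real.exp (L / 8) * 6) / 3 := by ring
      _ ≤ Real.exp (L / 2) * (Real.exp (L / 8) * Real.exp (3 * L / 8 - w / 2)) / 3 := by gcongr
  linarith

/-- the main count -/
theorem main : ∃ C c : ℝ, 0 < C ∧ 0 < c ∧ ∀ᶠ x : ℕ in atTop, ∀ K : ℝ, 1 ≤ K →
    K ≤ Real.log (Real.log x) →
    (#{n ∈ Icc 1 x | C * (Real.log (Real.log (Real.log x)) + K) < N5dc7309f.f n} : ℝ)
      ≤ x * Real.exp (-(c * Real.log x * (K / Real.log (Real.log x)) /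
          Real.log (8 * Real.log (Real.log x) / K))) := by
  obtain ⟨C1, hC1, hS⟩ := scale
  obtain ⟨CB, hCB, hBT⟩ := NB_BT
  have hlogC : 0 ≤ Real.log (2 * C1) := Real.log_nonneg (by linarith)
  refine ⟨6 * CB + CB * Real.log (2 * C1) + 9600, 1 / (32 * C1), by positivity, by positivity, ?_⟩
  have hlog : Tendsto (fun x : ℕ => Real.log x) atTop atTop :=
    Real.tendsto_log_atTop.comp tendsto_natCast_atTop_atTop
  have hloglog : Tendsto (fun x : ℕ => Real.log (Real.log x)) atTop atTop :=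
    Real.tendsto_log_atTop.comp hlog
  have hlll : Tendsto (fun x : ℕ => Real.log (Real.log (Real.log x))) atTop atTop :=
    Real.tendsto_log_atTop.comp hloglog
  -- `9 (e ^ y + 1) ≤ exp (e ^ y / (256 C1 y ^ 2))`
  have hE : ∀ᶠ y : ℝ in atTop,
      9 * (Real.exp y + 1) ≤ Real.exp (Real.exp y / (256 * C1 * y ^ 2)) := by
    have h1 : Tendsto (fun y : ℝ => Real.exp y / y ^ 3) atTop atTop :=
      Real.tendsto_exp_div_pow_atTop 3
    filter_upwards [h1.eventually (eventually_ge_atTop (512 * C1)),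
      eventually_ge_atTop (4 : ℝ)] with y hy hy2
    have hy0 : 0 < y := by linarith
    have h2 : 2 * y ≤ Real.exp y / (256 * C1 * y ^ 2) := by
      rw [le_div_iff₀ (by positivity)] at hy ⊢
      nlinarith
    refine le_trans ?_ (Real.exp_le_exp.2 h2)
    have h3 : Real.exp (2 * y) = Real.exp y * Real.exp y := by
      rw [← Real.exp_add]; congr 1; ring
    rw [h3]
    have h4 : 18 ≤ Real.exp y := by
      have h5 : Real.exp 4 ≤ Real.exp y := Real.exp_le_exp.2 hy2
      have h6 : (2.7 : ℝ) ^ 4 ≤ Real.exp 4 := by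
        have h7 : Real.exp 4 = Real.exp 1 ^ 4 := by
          rw [← Real.exp_nat_mul]; norm_num
        rw [h7]
        have := Real.exp_one_gt_d9
        gcongr
        linarith
      have h8 : (18 : ℝ) ≤ 2.7 ^ 4 := by norm_num
      linarith
    nlinarith
  filter_upwards [hS, hloglog.eventually hE, hloglog.eventually (eventually_ge_atTop (100 : ℝ)),
    hlog.eventually (eventually_ge_atTop (100 : ℝ)), hlll.eventually (eventually_ge_atTop (1 : ℝ)),
    eventually_ge_atTop 1] with x hSx hEx hx2 hx3 hx5 hx4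
  intro K hK1 hK2
  set L : ℝ := Real.log x with hL
  set LL : ℝ := Real.log L with hLL
  have hLL0 : 0 < LL := by linarith
  have hL0 : 0 < L := by linarith
  have hx0 : (0 : ℝ) < x := by exact_mod_cast hx4
  have hxe : (x : ℝ) = Real.exp L := by rw [hL, Real.exp_log hx0]
  have hLe : L = Real.exp LL := by rw [hLL, Real.exp_log hL0]
  set δ : ℝ := K / LL with hδd
  have hK0 : 0 < K := by linarith
  have hδ : 0 < δ := by positivity
  have hδ1 : 1 / LL ≤ δ := by
    rw [hδd]; gcongr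
  have hδ2 : δ ≤ 1 := by
    rw [hδd, div_le_one hLL0]; exact hK2
  have h8K : 8 * LL / K = 8 / δ := by
    rw [hδd]; field_simp
  rw [h8K]
  set κ : ℝ := Real.log (8 / δ) with hκ
  have h8 : (8 : ℝ) ≤ 8 / δ := by
    rw [le_div_iff₀ hδ]; linarith
  have hκ2 : 2 ≤ κ := by
    rw [hκ, Real.le_log_iff_exp_le (by positivity)]
    have h1 : Real.exp 2 ≤ 8 := by
      have := Real.exp_one_lt_d9
      have h2 : Real.exp 2 = Real.exp 1 ^ 2 := by
        rw [← Real.exp_nat_mul]; norm_num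
      rw [h2]
      have h3 : (0 : ℝ) < Real.exp 1 := Real.exp_pos 1
      nlinarith
    linarith
  have hκ0 : 0 < κ := by linarith
  have hδinv : 1 / δ ≤ LL := by
    rw [div_le_iff₀ hδ]
    rw [div_le_iff₀ hLL0] at hδ1
    linarith
  have hκ8 : κ ≤ 8 / δ := by
    have := Real.log_le_sub_one_of_pos (by positivity : 0 < 8 / δ)
    linarith
  have hκLL : κ ≤ LL := by
    have h1 : 8 / δ ≤ 8 * LL := by
      have : 8 / δ = 8 * (1 / δ) := by ring
      rw [this]; linarith
    have h2 : κ ≤ Real.log (8 * LL) := Real.log_le_log (by positivity) h1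
    have h3 : Real.log (8 * LL) ≤ LL := by
      rw [Real.log_le_iff_le_exp (by positivity)]
      have h4 := Real.quadratic_le_exp_of_nonneg hLL0.le
      nlinarith
    linarith
  -- the scales
  set i0 : ℕ := ⌈6 * LL⌉₊ with hi0
  set i1 : ℕ := ⌊L * δ / (C1 * κ)⌋₊ with hi1
  have hi0l : 6 * LL ≤ i0 := Nat.le_ceil _
  have hi0u : (i0 : ℝ) ≤ 7 * LL := by
    have := (Nat.ceil_lt_add_one (by positivity : 0 ≤ 6 * LL)).le
    linarith
  have hi01 : 1 ≤ i0 := by
    have h1 : (1 : ℝ) ≤ i0 := by linarith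
    exact_mod_cast h1
  have hdiv0 : 0 ≤ L * δ / (C1 * κ) := by positivity
  have hi1l : (i1 : ℝ) ≤ L * δ / (C1 * κ) := Nat.floor_le hdiv0
  have hi1u : L * δ / (C1 * κ) < i1 + 1 := Nat.lt_floor_add_one _
  set S : ℕ → Finset ℕ := fun i => {n ∈ Ico (⌊Real.sqrt x⌋₊ + 1) (x + 1) |
        2400 * δ * 2 ^ i / i < (NB (2 ^ i) (2 ^ i) n : ℝ)} with hSd
  have hSi : ∀ i ∈ Icc i0 i1, (#(S i) : ℝ) ≤
      3 * x * Real.exp (-(L * δ / (16 * C1 * κ))) + Real.exp (L / 8) := by
    intro i hi
    rw [mem_Icc] at hi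
    have h1 : (i0 : ℝ) ≤ i := by exact_mod_cast hi.1
    have h2 : (i : ℝ) ≤ i1 := by exact_mod_cast hi.2
    refine hSx δ i hδ1 hδ2 (by linarith) ?_
    have h3 : (i : ℝ) ≤ L * δ / (C1 * κ) := by linarith
    rwa [le_div_iff₀ (by positivity)] at h3
  -- the inclusion
  have hsub : {n ∈ Icc 1 x | (6 * CB + CB * Real.log (2 * C1) + 9600) * (Real.log LL + K)
      < N5dc7309f.f n} ⊆ Icc 1 ⌊Real.sqrt x⌋₊ ∪ (Icc i0 i1).biUnion S := by
    intro n hn
    rw [mem_filter, mem_Icc] at hn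
    rw [mem_union]
    by_contra hcon
    rw [not_or] at hcon
    obtain ⟨hc1, hc2⟩ := hcon
    have hn1 : ⌊Real.sqrt x⌋₊ + 1 ≤ n := by
      by_contra h
      exact hc1 (mem_Icc.2 ⟨hn.1.1, by omega⟩)
    have hmid : ∀ i : ℕ, i0 ≤ i → i ≤ i1 →
        (NB (2 ^ i) (2 ^ i) n : ℝ) / 2 ^ i ≤ 2400 * δ / i := by
      intro i h1 h2
      have h3 : n ∉ S i := fun h => hc2 (mem_biUnion.2 ⟨i, mem_Icc.2 ⟨h1, h2⟩, h⟩)
      rw [hSd, mem_filter, not_and, not_lt] at h3
      have h4 := h3 (mem_Ico.2 ⟨hn1, by omega⟩)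
      rw [div_le_iff₀ (by positivity)]
      calc (NB (2 ^ i) (2 ^ i) n : ℝ) ≤ 2400 * δ * 2 ^ i / i := h4
        _ = 2400 * δ / i * 2 ^ i := by ring
    have hBTn : ∀ i : ℕ, (NB (2 ^ i) (2 ^ i) n : ℝ) / 2 ^ i ≤ CB / (i + 1) := by
      intro i
      rw [div_le_iff₀ (by positivity)]
      calc (NB (2 ^ i) (2 ^ i) n : ℝ) ≤ CB * 2 ^ i / (i + 1) := hBT i n
        _ = CB / (i + 1) * 2 ^ i := by ring
    have hN2 : ((Nat.log 2 n + 1 : ℕ) : ℝ) ≤ 2 * L := by
      have hn0 : (0 : ℝ) < n := by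
        have : 0 < n := by omega
        exact_mod_cast this
      have h1 : (2 : ℝ) ^ (Nat.log 2 n) ≤ n := by
        have := Nat.pow_log_le_self 2 (by omega : n ≠ 0)
        exact_mod_cast this
      have h2 : (Nat.log 2 n : ℝ) * Real.log 2 ≤ Real.log n := by
        rw [← Real.log_pow]
        exact Real.log_le_log (by positivity) h1
      have h3 : Real.log n ≤ L := Real.log_le_log hn0 (by exact_mod_cast hn.1.2)
      have h4 := log_two_bounds.1
      have h5 : (0 : ℝ) ≤ (Nat.log 2 n : ℝ) := Nat.cast_nonneg _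
      push_cast
      nlinarith
    have hY : 1 ≤ 2 * C1 * κ / δ := by
      rw [le_div_iff₀ hδ]
      nlinarith
    have hp := pointwise CB δ (2 * C1 * κ / δ) hCB hδ.le hY
      (fun i => (NB (2 ^ i) (2 ^ i) n : ℝ) / 2 ^ i) (Nat.log 2 n + 1) i0 i1 hi01 (by omega)
      (by
        refine hN2.trans ?_
        have h1 : 2 * C1 * κ / δ * (L * δ / (C1 * κ)) = 2 * L := by
          field_simp
        rw [← h1]
        exact mul_le_mul_of_nonneg_left hi1u.le (by positivity)) hBTn hmid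
    have hf := f_le n
    have hlogi0 : Real.log i0 ≤ 2 + Real.log LL := by
      have h1 : Real.log i0 ≤ Real.log (7 * LL) := by
        apply Real.log_le_log _ hi0u
        linarith
      rw [Real.log_mul (by norm_num) (by positivity)] at h1
      have h2 : Real.log 7 ≤ 2 := by
        rw [Real.log_le_iff_le_exp (by norm_num)]
        have h3 : Real.exp 2 = Real.exp 1 ^ 2 := by
          rw [← Real.exp_nat_mul]; norm_num
        rw [h3]
        have := Real.exp_one_gt_d9
        nlinarith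
      linarith
    have hlogN : Real.log ((Nat.log 2 n + 1 : ℕ) : ℝ) ≤ 1 + LL := by
      have h1 : Real.log ((Nat.log 2 n + 1 : ℕ) : ℝ) ≤ Real.log (2 * L) :=
        Real.log_le_log (by positivity) hN2
      rw [Real.log_mul (by norm_num) (by positivity)] at h1
      have := log_two_bounds.2
      linarith
    have hlogY : Real.log (2 * C1 * κ / δ) ≤ Real.log (2 * C1) + 2 * Real.log LL := by
      have h1 : 2 * C1 * κ / δ = (2 * C1) * κ * (1 / δ) := by ring
      rw [h1, Real.log_mul (by positivity) (by positivity), Real.log_mul (by positivity)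
        (by positivity)]
      have h2 : Real.log κ ≤ Real.log LL := Real.log_le_log hκ0 hκLL
      have h3 : Real.log (1 / δ) ≤ Real.log LL := Real.log_le_log (by positivity) hδinv
      linarith
    have hmidK : 4800 * δ * (1 + Real.log ((Nat.log 2 n + 1 : ℕ) : ℝ)) ≤ 9600 * K := by
      have h1 : 1 + Real.log ((Nat.log 2 n + 1 : ℕ) : ℝ) ≤ 2 * LL := by linarith
      have h2 : δ * LL = K := by rw [hδd]; field_simp
      calc 4800 * δ * (1 + Real.log ((Nat.log 2 n + 1 : ℕ) : ℝ)) ≤ 4800 * δ * (2 * LL) := by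
            gcongr
        _ = 9600 * (δ * LL) := by ring
        _ = 9600 * K := by rw [h2]
    have hlt := hn.2
    have hb1 : CB * (1 + Real.log i0) ≤ CB * (3 + Real.log LL) := by
      apply mul_le_mul_of_nonneg_left _ hCB.le
      linarith
    have hb2 : CB * Real.log (2 * C1 * κ / δ) ≤ CB * (Real.log (2 * C1) + 2 * Real.log LL) :=
      mul_le_mul_of_nonneg_left hlogY hCB.le
    have hb3 : CB * Real.log (2 * C1) * 1 ≤ CB * Real.log (2 * C1) * Real.log LL :=
      mul_le_mul_of_nonneg_left hx5 (by positivity)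
    have hb4 : 0 ≤ CB * Real.log (2 * C1) * K := by positivity
    have hb5 : 0 ≤ CB * K := by positivity
    have hb6 : 3 * CB * 1 ≤ 3 * CB * Real.log LL :=
      mul_le_mul_of_nonneg_left hx5 (by positivity)
    have hb7 : 0 ≤ Real.log LL := by linarith
    nlinarith
  -- the count
  have hcard : (#{n ∈ Icc 1 x | (6 * CB + CB * Real.log (2 * C1) + 9600) * (Real.log LL + K)
      < N5dc7309f.f n} : ℝ) ≤ (#(Icc 1 ⌊Real.sqrt x⌋₊) : ℝ) + ∑ i ∈ Icc i0 i1, (#(S i) : ℝ) := by
    have h1 := (card_le_card hsub).trans (card_union_le _ _)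
    have h2 : #((Icc i0 i1).biUnion S) ≤ ∑ i ∈ Icc i0 i1, #(S i) := card_biUnion_le
    have h3 := h1.trans (Nat.add_le_add_left h2 _)
    exact_mod_cast h3
  refine hcard.trans ?_
  set w : ℝ := L * δ / (16 * C1 * κ) with hw
  have hsqrt : (#(Icc 1 ⌊Real.sqrt x⌋₊) : ℝ) ≤ Real.exp (L / 2) := by
    rw [Nat.card_Icc, Nat.add_sub_cancel]
    refine (Nat.floor_le (Real.sqrt_nonneg _)).trans (le_of_eq ?_)
    rw [hL, Real.sqrt_eq_rpow, Real.rpow_def_of_pos hx0]
    congr 1; ring
  have hw32 : w ≤ L / 32 := by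
    rw [hw, div_le_div_iff₀ (by positivity) (by norm_num)]
    have h1 : (2 : ℝ) ≤ C1 * κ := by nlinarith
    have h2 : L * δ ≤ L := by nlinarith
    nlinarith
  have hcardI : ((#(Icc i0 i1) : ℕ) : ℝ) ≤ L + 1 := by
    rw [Nat.card_Icc]
    have h1 : ((i1 + 1 - i0 : ℕ) : ℝ) ≤ i1 + 1 := by
      have : i1 + 1 - i0 ≤ i1 + 1 := Nat.sub_le _ _
      exact_mod_cast this
    have h2 : L * δ / (C1 * κ) ≤ L := by
      rw [div_le_iff₀ (by positivity)]
      have h3 : (1 : ℝ) ≤ C1 * κ := by nlinarith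
      nlinarith
    linarith
  have hsum : ∑ i ∈ Icc i0 i1, (#(S i) : ℝ) ≤
      (L + 1) * (3 * x * Real.exp (-w) + Real.exp (L / 8)) := by
    refine (sum_le_sum hSi).trans ?_
    rw [sum_const, nsmul_eq_mul]
    apply mul_le_mul_of_nonneg_right hcardI
    positivity
  have hw9 : 9 * (L + 1) ≤ Real.exp (w / 2) := by
    rw [← hLe] at hEx
    refine hEx.trans (Real.exp_le_exp.2 ?_)
    have h1 : w / 2 = L * δ / (32 * C1 * κ) := by
      rw [hw]; ring
    rw [h1, div_le_div_iff₀ (by positivity) (by positivity)]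
    -- `L * (32 C1 κ) ≤ L δ (256 C1 LL ^ 2)`
    have h2 : κ ≤ δ * (8 * LL ^ 2) := by
      refine hκ8.trans ?_
      rw [div_le_iff₀ hδ]
      have h3 : 1 ≤ δ * LL := by
        rw [div_le_iff₀ hLL0] at hδ1
        exact hδ1
      have h4 : 1 ≤ (δ * LL) ^ 2 := one_le_pow₀ h3
      nlinarith
    have h5 : 0 < L * C1 := by positivity
    calc L * (32 * C1 * κ) = (L * C1) * 32 * κ := by ring
      _ ≤ (L * C1) * 32 * (δ * (8 * LL ^ 2)) := by gcongr
      _ = L * δ * (256 * C1 * LL ^ 2) := by ring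
  have hfin := count_num hxe hx3 hw32 hw9
  have hexp : 1 / (32 * C1) * L * δ / κ = w / 2 := by
    rw [hw]
    field_simp
    ring
  rw [hexp]
  linarith

end RD
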