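import Pool.Agent.LibRD13.Def

/-! MP_699cde_nt, row BLK: independence of the blocks. -/

set_option autoImplicit false
set_option linter.unusedSectionVars false

namespace RD

open Finset

section blk

variable {ι : Type} [Fintype ι] [DecidableEq ι]

theorem blk_cw_nonneg (β : ι → ℝ) (hβ : ∀ i, 0 ≤ β i ∧ β i ≤ 1) (c : ι → Bool) : 0 ≤ cw β c := by
  unfold cw
  refine Finset.prod_nonneg fun i _ => ?_
  split_ifs
  · exact (hβ i).1
  · linarith [(hβ i).2]

theorem blk_cw_sum (β : ι → ℝ) : ∑ c : ι → Bool, cw β c = 1 := by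
  have h := Finset.prod_univ_sum (fun _ : ι => (univ : Finset Bool))
    (fun i (b : Bool) => if b = true then β i else 1 - β i)
  rw [Fintype.piFinset_univ] at h
  unfold cw
  rw [← h]
  simp

theorem blk_EC_add (β : ι → ℝ) (f g : (ι → Bool) → ℝ) :
    EC β (fun c => f c + g c) = EC β f + EC β g := by
  simp only [EC, mul_add, Finset.sum_add_distrib]

theorem blk_EC_const (β : ι → ℝ) (v : ℝ) : EC β (fun _ => v) = v := by
  simp only [EC, ← Finset.sum_mul, blk_cw_sum, one_mul]

theorem blk_EC_smul (β : ι → ℝ) (v : ℝ) (f : (ι → Bool) → ℝ) :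
    EC β (fun c => v * f c) = v * EC β f := by
  simp only [EC, Finset.mul_sum]
  exact Finset.sum_congr rfl fun c _ => by ring

theorem blk_EC_centred (β : ι → ℝ) (W : (ι → Bool) → ℝ) :
    EC β (fun c => W c - EC β W) = 0 := by
  have h := blk_EC_add β W (fun _ => - EC β W)
  rw [blk_EC_const] at h
  simp only [sub_eq_add_neg]
  rw [h, add_neg_cancel]

theorem blk_EC_var (β : ι → ℝ) (W : (ι → Bool) → ℝ) :
    EC β (fun c => (W c - EC β W) * (W c - EC β W)) ≤ EC β (fun c => W c ^ 2) := by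
  have h1 : (fun c => (W c - EC β W) * (W c - EC β W)) =
      fun c => W c ^ 2 + ((-(2 * EC β W)) * W c + EC β W ^ 2) := by
    funext c
    ring
  rw [h1, blk_EC_add β (fun c => W c ^ 2) (fun c => (-(2 * EC β W)) * W c + EC β W ^ 2),
    blk_EC_add β (fun c => (-(2 * EC β W)) * W c) (fun _ => EC β W ^ 2), blk_EC_smul,
    blk_EC_const]
  nlinarith [sq_nonneg (EC β W)]

theorem blk_EC_nonneg (β : ι → ℝ) (hβ : ∀ i, 0 ≤ β i ∧ β i ≤ 1) (f : (ι → Bool) → ℝ)
    (hf : ∀ c, 0 ≤ f c) : 0 ≤ EC β f :=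
  Finset.sum_nonneg fun c _ => mul_nonneg (blk_cw_nonneg β hβ c) (hf c)

/-- independence of the columns of one block -/
theorem blk_indep {X : Type} [Fintype X] [DecidableEq X] (β : ι → ℝ)
    (g : X → (ι → Bool) → ℝ) :
    ∑ b : X → ι → Bool, (∏ x, cw β (b x)) * ∏ x, g x (b x) = ∏ x, EC β (g x) := by
  have h := Finset.prod_univ_sum (fun _ : X => (univ : Finset (ι → Bool)))
    (fun x c => cw β c * g x c)
  rw [Fintype.piFinset_univ] at h
  unfold EC
  rw [h]
  exact Finset.sum_congr rfl fun b _ => by rw [Finset.prod_mul_distrib]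

theorem blk_pair {X : Type} [Fintype X] [DecidableEq X] (β : ι → ℝ) (Z : (ι → Bool) → ℝ)
    (hZ : EC β Z = 0) (x y : X) :
    ∑ b : X → ι → Bool, (∏ x, cw β (b x)) * (Z (b x) * Z (b y)) =
      if x = y then EC β (fun c => Z c * Z c) else 0 := by
  have h := blk_indep β (fun z c => (if z = x then Z c else 1) * (if z = y then Z c else 1))
    (X := X)
  have h2 : ∀ b : X → ι → Bool, ∏ z, ((if z = x then Z (b z) else 1) *
      (if z = y then Z (b z) else 1)) = Z (b x) * Z (b y) := by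
    intro b
    rw [Finset.prod_mul_distrib, Finset.prod_ite_eq' univ x, Finset.prod_ite_eq' univ y]
    simp
  simp only [h2] at h
  rw [h]
  by_cases hxy : x = y
  · subst hxy
    rw [if_pos rfl]
    have h3 : ∀ z, EC β (fun c => (if z = x then Z c else 1) * (if z = x then Z c else 1)) =
        if z = x then EC β (fun c => Z c * Z c) else 1 := by
      intro z
      by_cases hz : z = x
      · simp only [if_pos hz]
      · simp only [if_neg hz, mul_one]
        exact blk_EC_const β 1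
    rw [Finset.prod_congr rfl fun z _ => h3 z, Finset.prod_ite_eq' univ x]
    simp
  · rw [if_neg hxy]
    refine Finset.prod_eq_zero (Finset.mem_univ x) ?_
    simp only [if_true, if_neg hxy, mul_one]
    exact hZ

theorem blk_one {X : Type} [Fintype X] [DecidableEq X] (β : ι → ℝ) (Z : (ι → Bool) → ℝ)
    (hZ : EC β Z = 0) (s : X → ℝ) :
    ∑ b : X → ι → Bool, (∏ x, cw β (b x)) * (∑ x, s x * Z (b x)) ^ 2 =
      ∑ x, s x ^ 2 * EC β (fun c => Z c * Z c) := by
  have h1 : ∀ b : X → ι → Bool, (∏ x, cw β (b x)) * (∑ x, s x * Z (b x)) ^ 2 =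
      ∑ x, ∑ y, s x * s y * ((∏ x, cw β (b x)) * (Z (b x) * Z (b y))) := by
    intro b
    rw [sq, Finset.sum_mul_sum, Finset.mul_sum]
    refine Finset.sum_congr rfl fun x _ => ?_
    rw [Finset.mul_sum]
    exact Finset.sum_congr rfl fun y _ => by ring
  rw [Finset.sum_congr rfl fun b _ => h1 b, Finset.sum_comm]
  refine Finset.sum_congr rfl fun x _ => ?_
  rw [Finset.sum_comm]
  have h2 : ∀ y, ∑ b : X → ι → Bool, s x * s y * ((∏ x, cw β (b x)) * (Z (b x) * Z (b y))) =
      if x = y then s x * s y * EC β (fun c => Z c * Z c) else 0 := by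
    intro y
    rw [← Finset.mul_sum, blk_pair β Z hZ x y]
    split_ifs
    · rfl
    · rw [mul_zero]
  rw [Finset.sum_congr rfl fun y _ => h2 y, Finset.sum_ite_eq univ x]
  simp only [Finset.mem_univ, if_true]
  ring

/-! ### row BLK: independence -/

theorem blk {Q X : Type} [Fintype Q] [DecidableEq Q] [Fintype X] [DecidableEq X] (β : ι → ℝ)
    (hβ : ∀ i, 0 ≤ β i ∧ β i ≤ 1) (t : ℕ) (s : Q → X → ℝ) (S : ℝ) (hs : ∀ q x, |s q x| ≤ S)
    (T : Finset Q) :
    ∑ B : Q → X → ι → Bool, (∏ q, ∏ x, cw β (B q x)) *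
        ∏ q ∈ T, (∑ x, s q x * (WC t (B q x) - EC β (WC t))) ^ 2
      ≤ (Fintype.card X * S ^ 2 * EC β (fun c => WC t c ^ 2)) ^ #T := by
  set Z : (ι → Bool) → ℝ := fun c => WC t c - EC β (WC t) with hZdef
  have hZ : EC β Z = 0 := blk_EC_centred β (WC t)
  -- one block
  set F : Q → (X → ι → Bool) → ℝ := fun q b =>
    (∏ x, cw β (b x)) * (if q ∈ T then (∑ x, s q x * Z (b x)) ^ 2 else 1) with hF
  have h1 : ∑ B : Q → X → ι → Bool, (∏ q, ∏ x, cw β (B q x)) *
        ∏ q ∈ T, (∑ x, s q x * (WC t (B q x) - EC β (WC t))) ^ 2 = ∏ q, ∑ b, F q b := by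
    have h := Finset.prod_univ_sum (fun _ : Q => (univ : Finset (X → ι → Bool))) F
    rw [Fintype.piFinset_univ] at h
    rw [h]
    refine Finset.sum_congr rfl fun B _ => ?_
    simp only [hF, Finset.prod_mul_distrib]
    congr 1
    rw [Finset.prod_ite_mem, Finset.univ_inter]
  have h2 : ∀ q, ∑ b, F q b = if q ∈ T then ∑ x, s q x ^ 2 * EC β (fun c => Z c * Z c) else 1 := by
    intro q
    by_cases hq : q ∈ T
    · simp only [hF, if_pos hq]
      exact blk_one β Z hZ (s q)
    · simp only [hF, if_neg hq, mul_one]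
      have h := blk_indep β (fun (_ : X) (_ : ι → Bool) => (1 : ℝ))
      simp only [Finset.prod_const_one, mul_one, blk_EC_const] at h
      exact h
  rw [h1, Finset.prod_congr rfl fun q _ => h2 q, Finset.prod_ite_mem, Finset.univ_inter,
    ← Finset.prod_const]
  have hZ0 : 0 ≤ EC β (fun c => Z c * Z c) :=
    blk_EC_nonneg β hβ _ fun c => mul_self_nonneg _
  have hZ1 : EC β (fun c => Z c * Z c) ≤ EC β (fun c => WC t c ^ 2) := blk_EC_var β (WC t)
  refine Finset.prod_le_prod (fun q _ => ?_) fun q _ => ?_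
  · exact Finset.sum_nonneg fun x _ => mul_nonneg (sq_nonneg _) hZ0
  · have h3 : ∀ x ∈ (univ : Finset X), s q x ^ 2 * EC β (fun c => Z c * Z c) ≤
        S ^ 2 * EC β (fun c => WC t c ^ 2) := by
      intro x _
      have h4 : s q x ^ 2 ≤ S ^ 2 := sq_le_sq' (by linarith [(abs_le.mp (hs q x)).1])
        (abs_le.mp (hs q x)).2
      exact mul_le_mul h4 hZ1 hZ0 (sq_nonneg _)
    calc ∑ x, s q x ^ 2 * EC β (fun c => Z c * Z c)
        ≤ ∑ _x : X, S ^ 2 * EC β (fun c => WC t c ^ 2) := Finset.sum_le_sum h3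
      _ = Fintype.card X * S ^ 2 * EC β (fun c => WC t c ^ 2) := by
          rw [Finset.sum_const, Finset.card_univ, nsmul_eq_mul]
          ring

end blk

end RD
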