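import Pool.Agent.LibRD13.Def

/-! Brun's truncated alternating sums. -/

set_option autoImplicit false
set_option linter.unusedSectionVars false

namespace RD

open Finset

theorem BRU_alt (w m : ℕ) :
    ∑ j ∈ range (m + 1), (-1 : ℝ) ^ j * ((w + 1).choose j : ℝ) = (-1) ^ m * (w.choose m : ℝ) := by
  induction m with
  | zero => simp
  | succ m ih =>
    rw [Finset.sum_range_succ, ih, Nat.choose_succ_succ]
    push_cast
    ring

/-- `brun t w = C(w - 1, 2 t)` for `w ≥ 1` -/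
theorem BRU_eq (t w : ℕ) : brun t (w + 1) = (w.choose (2 * t) : ℝ) := by
  unfold brun
  rw [BRU_alt, pow_mul]
  simp

theorem brun_zero (t : ℕ) : brun t 0 = 1 := by
  unfold brun
  rw [Finset.sum_range_succ']
  simp

/-- `brun t w = C(w - 1, 2 t)` for `w ≥ 1` -/
theorem brun_nonneg (t w : ℕ) : 0 ≤ brun t w := by
  rcases w with _ | w
  · rw [brun_zero]
    exact zero_le_one
  · rw [BRU_eq]
    exact Nat.cast_nonneg _

theorem brun_abs (t w : ℕ) : |brun t w| ≤ 2 ^ w := by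
  rw [abs_of_nonneg (brun_nonneg t w)]
  rcases w with _ | w
  · rw [brun_zero, pow_zero]
  · rw [BRU_eq]
    have h1 : (w.choose (2 * t) : ℝ) ≤ 2 ^ w := by exact_mod_cast Nat.choose_le_two_pow w (2 * t)
    have h2 : (2 : ℝ) ^ w ≤ 2 ^ (w + 1) := pow_le_pow_right₀ (by norm_num) (Nat.le_succ w)
    exact h1.trans h2

theorem brun_le (t w : ℕ) (hw : 1 ≤ w) : brun t w ≤ 9 ^ w / 8 ^ (2 * t) := by
  obtain ⟨w, rfl⟩ : ∃ v, w = v + 1 := ⟨w - 1, by omega⟩
  rw [BRU_eq, le_div_iff₀ (by positivity)]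
  have h1 : (w.choose (2 * t) : ℝ) * 8 ^ (2 * t) ≤ 9 ^ w := by
    have h2 : (9 : ℝ) ^ w = ∑ j ∈ range (w + 1), (8 : ℝ) ^ j * (w.choose j : ℝ) := by
      have := add_pow (8 : ℝ) 1 w
      rw [show (8 : ℝ) + 1 = 9 by norm_num] at this
      rw [this]
      exact Finset.sum_congr rfl fun j _ => by rw [one_pow, mul_one]
    rcases Nat.lt_or_ge w (2 * t) with hlt | hge
    · rw [Nat.choose_eq_zero_of_lt hlt]
      simp
    · rw [h2, mul_comm]
      exact Finset.single_le_sum (f := fun j => (8 : ℝ) ^ j * (w.choose j : ℝ))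
        (fun j _ => by positivity) (Finset.mem_range.2 (by omega))
  have h3 : (9 : ℝ) ^ w ≤ 9 ^ (w + 1) := pow_le_pow_right₀ (by norm_num) (Nat.le_succ w)
  exact h1.trans h3

end RD
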