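import Pool.Agent.LibRD13.Def

/-! row CNT: double counting. -/

set_option autoImplicit false
set_option linter.unusedSectionVars false

namespace RD

open Finset

theorem cnt_swap (Ω : Finset ℕ) (m r : ℕ) (bad : ℕ → Finset (Fin m)) :
    ∑ n ∈ Ω, (#(bad n)).choose r
      = ∑ T ∈ powersetCard r (univ : Finset (Fin m)), #{n ∈ Ω | T ⊆ bad n} := by
  have h1 : ∀ n ∈ Ω, (#(bad n)).choose r
      = ∑ T ∈ powersetCard r (univ : Finset (Fin m)), (if T ⊆ bad n then 1 else 0) := by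
    intro n _
    rw [← Finset.card_powersetCard, Finset.sum_ite, Finset.sum_const_zero, add_zero,
      Finset.sum_const, smul_eq_mul, mul_one]
    congr 1
    ext T
    simp only [mem_powersetCard, mem_filter, subset_univ, true_and]
    tauto
  rw [Finset.sum_congr rfl h1, Finset.sum_comm]
  refine Finset.sum_congr rfl fun T _ => ?_
  rw [Finset.sum_ite, Finset.sum_const_zero, add_zero, Finset.sum_const, smul_eq_mul, mul_one]

theorem bad_count (Ω : Finset ℕ) (m r b : ℕ) (bad : ℕ → Finset (Fin m)) (M : ℝ) (hM0 : 0 ≤ M)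
    (hM : ∀ T : Finset (Fin m), #T = r → (#{n ∈ Ω | T ⊆ bad n} : ℝ) ≤ M) :
    (#{n ∈ Ω | b ≤ #(bad n)} : ℝ) * ((b + 1 - r : ℕ) : ℝ) ^ r ≤ (m : ℝ) ^ r * M := by
  have h1 : (#{n ∈ Ω | b ≤ #(bad n)}) * b.choose r ≤ ∑ n ∈ Ω, (#(bad n)).choose r := by
    calc (#{n ∈ Ω | b ≤ #(bad n)}) * b.choose r
        = ∑ _n ∈ Ω.filter (fun n => b ≤ #(bad n)), b.choose r := by
          rw [Finset.sum_const, smul_eq_mul]
      _ ≤ ∑ n ∈ Ω.filter (fun n => b ≤ #(bad n)), (#(bad n)).choose r :=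
          Finset.sum_le_sum fun n hn => Nat.choose_le_choose r (mem_filter.1 hn).2
      _ ≤ ∑ n ∈ Ω, (#(bad n)).choose r :=
          Finset.sum_le_sum_of_subset (filter_subset _ _)
  have h2 : ((∑ n ∈ Ω, (#(bad n)).choose r : ℕ) : ℝ) ≤ (m.choose r : ℝ) * M := by
    rw [cnt_swap]
    push_cast
    calc ∑ T ∈ powersetCard r (univ : Finset (Fin m)), (#{n ∈ Ω | T ⊆ bad n} : ℝ)
        ≤ ∑ _T ∈ powersetCard r (univ : Finset (Fin m)), M :=
          Finset.sum_le_sum fun T hT => hM T (mem_powersetCard.1 hT).2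
      _ = (m.choose r : ℝ) * M := by
          rw [Finset.sum_const, card_powersetCard, card_univ, Fintype.card_fin, nsmul_eq_mul]
  have h3 : (b + 1 - r) ^ r ≤ r.factorial * b.choose r := by
    rw [← Nat.descFactorial_eq_factorial_mul_choose]
    exact Nat.pow_sub_le_descFactorial b r
  have h4 : r.factorial * m.choose r ≤ m ^ r := by
    rw [← Nat.descFactorial_eq_factorial_mul_choose]
    exact Nat.descFactorial_le_pow m r
  have h3' : ((b + 1 - r : ℕ) : ℝ) ^ r ≤ (r.factorial : ℝ) * (b.choose r : ℝ) := by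
    exact_mod_cast h3
  have h4' : (r.factorial : ℝ) * (m.choose r : ℝ) ≤ (m : ℝ) ^ r := by
    exact_mod_cast h4
  have h1' : (#{n ∈ Ω | b ≤ #(bad n)} : ℝ) * (b.choose r : ℝ)
      ≤ ((∑ n ∈ Ω, (#(bad n)).choose r : ℕ) : ℝ) := by
    exact_mod_cast h1
  have hf : (0 : ℝ) ≤ (r.factorial : ℝ) := Nat.cast_nonneg _
  have hc : (0 : ℝ) ≤ (#{n ∈ Ω | b ≤ #(bad n)} : ℝ) := Nat.cast_nonneg _
  calc (#{n ∈ Ω | b ≤ #(bad n)} : ℝ) * ((b + 1 - r : ℕ) : ℝ) ^ r
      ≤ (#{n ∈ Ω | b ≤ #(bad n)} : ℝ) * ((r.factorial : ℝ) * (b.choose r : ℝ)) :=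
        mul_le_mul_of_nonneg_left h3' hc
    _ = (r.factorial : ℝ) * ((#{n ∈ Ω | b ≤ #(bad n)} : ℝ) * (b.choose r : ℝ)) := by ring
    _ ≤ (r.factorial : ℝ) * ((m.choose r : ℝ) * M) :=
        mul_le_mul_of_nonneg_left (h1'.trans h2) hf
    _ = ((r.factorial : ℝ) * (m.choose r : ℝ)) * M := by ring
    _ ≤ (m : ℝ) ^ r * M := mul_le_mul_of_nonneg_right h4' hM0

end RD
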