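import Pool.Agent.LibRD13.Def
import Pool.Agent.LibRD13.Bru

/-! Expectations of the Brun weight of a column. -/

set_option autoImplicit false
set_option linter.unusedSectionVars false

namespace RD

open Finset


section col

variable {ι : Type} [Fintype ι] [DecidableEq ι]

theorem EC_pow (β : ι → ℝ) (a : ℝ) :
    EC β (fun c => a ^ cnt c) = ∏ i, (1 - β i + a * β i) := by
  have h1 : ∀ c : ι → Bool, cw β c * a ^ cnt c
      = ∏ i, (if c i = true then a * β i else 1 - β i) := by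
    intro c
    unfold cw cnt
    rw [← Finset.prod_const, Finset.prod_filter, ← Finset.prod_mul_distrib]
    refine Finset.prod_congr rfl fun i _ => ?_
    split_ifs <;> ring
  unfold EC
  rw [Finset.sum_congr rfl fun c _ => h1 c]
  have h2 : ∀ i, 1 - β i + a * β i = ∑ b : Bool, (if b = true then a * β i else 1 - β i) := by
    intro i
    rw [Fintype.sum_bool]
    simp only [if_true, Bool.false_eq_true, if_false]
    ring
  rw [Finset.prod_congr rfl fun i _ => h2 i, Finset.prod_univ_sum, Fintype.piFinset_univ]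

theorem EC_one (β : ι → ℝ) : EC β (fun _ => 1) = 1 := by
  have h := EC_pow β 1
  simp only [one_pow, one_mul, sub_add_cancel, Finset.prod_const_one] at h
  exact h

theorem cw_nonneg (β : ι → ℝ) (hβ : ∀ i, 0 ≤ β i ∧ β i ≤ 1) (c : ι → Bool) : 0 ≤ cw β c := by
  unfold cw
  refine Finset.prod_nonneg fun i _ => ?_
  have := hβ i
  split_ifs
  · exact this.1
  · linarith [this.2]

theorem COL_mono (β : ι → ℝ) (hβ : ∀ i, 0 ≤ β i ∧ β i ≤ 1) (g h : (ι → Bool) → ℝ)
    (hgh : ∀ c, g c ≤ h c) : EC β g ≤ EC β h := by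
  unfold EC
  exact Finset.sum_le_sum fun c _ => mul_le_mul_of_nonneg_left (hgh c) (cw_nonneg β hβ c)

theorem EC_W_nonneg (β : ι → ℝ) (hβ : ∀ i, 0 ≤ β i ∧ β i ≤ 1) (t : ℕ) : 0 ≤ EC β (WC t) := by
  unfold EC WC
  exact Finset.sum_nonneg fun c _ => mul_nonneg (cw_nonneg β hβ c) (brun_nonneg t _)

theorem EC_W_le (β : ι → ℝ) (hβ : ∀ i, 0 ≤ β i ∧ β i ≤ 1) (t : ℕ) :
    EC β (WC t) ≤ Real.exp (-∑ i, β i) + Real.exp (8 * ∑ i, β i) / 8 ^ (2 * t) := by
  have h8 : (0 : ℝ) < 8 ^ (2 * t) := by positivity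
  have h1 : EC β (WC t) ≤ EC β (fun c => 0 ^ cnt c) + EC β (fun c => 9 ^ cnt c) / 8 ^ (2 * t) := by
    have e : EC β (fun c => 0 ^ cnt c) + EC β (fun c => 9 ^ cnt c) / 8 ^ (2 * t)
        = EC β (fun c => 0 ^ cnt c + 9 ^ cnt c / 8 ^ (2 * t)) := by
      unfold EC
      rw [Finset.sum_div, ← Finset.sum_add_distrib]
      exact Finset.sum_congr rfl fun c _ => by ring
    rw [e]
    refine COL_mono β hβ _ _ fun c => ?_
    unfold WC
    rcases Nat.eq_zero_or_pos (cnt c) with h0 | hpos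
    · rw [h0, brun_zero, pow_zero, pow_zero]
      have : (0 : ℝ) ≤ 1 / 8 ^ (2 * t) := by positivity
      linarith
    · rw [zero_pow (by omega), zero_add]
      exact brun_le t _ hpos
  have h2 : EC β (fun c => 0 ^ cnt c) ≤ Real.exp (-∑ i, β i) := by
    rw [EC_pow, ← Finset.sum_neg_distrib, Real.exp_sum]
    refine Finset.prod_le_prod (fun i _ => ?_) fun i _ => ?_
    · have := hβ i
      linarith [this.2]
    · have := Real.add_one_le_exp (-β i)
      linarith
  have h3 : EC β (fun c => 9 ^ cnt c) ≤ Real.exp (8 * ∑ i, β i) := by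
    rw [EC_pow, Finset.mul_sum, Real.exp_sum]
    refine Finset.prod_le_prod (fun i _ => ?_) fun i _ => ?_
    · have := hβ i
      linarith [this.1, this.2]
    · have := Real.add_one_le_exp (8 * β i)
      linarith
  have h4 := div_le_div_of_nonneg_right h3 h8.le
  linarith

theorem EC_Wsq_le (β : ι → ℝ) (hβ : ∀ i, 0 ≤ β i ∧ β i ≤ 1) (t : ℕ) :
    EC β (fun c => WC t c ^ 2) ≤ Real.exp (3 * ∑ i, β i) := by
  have h1 : EC β (fun c => WC t c ^ 2) ≤ EC β (fun c => 4 ^ cnt c) := by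
    refine COL_mono β hβ _ _ fun c => ?_
    unfold WC
    have h := brun_abs t (cnt c)
    rw [← sq_abs]
    calc |brun t (cnt c)| ^ 2 ≤ ((2 : ℝ) ^ cnt c) ^ 2 := pow_le_pow_left₀ (abs_nonneg _) h 2
      _ = 4 ^ cnt c := by rw [← pow_mul, mul_comm, pow_mul]; norm_num
  refine h1.trans ?_
  rw [EC_pow, Finset.mul_sum, Real.exp_sum]
  refine Finset.prod_le_prod (fun i _ => ?_) fun i _ => ?_
  · have := hβ i
    linarith [this.1, this.2]
  · have := Real.add_one_le_exp (3 * β i)
    linarith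

end col

end RD
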