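import Pool.Agent.LibRD13.Def

set_option autoImplicit false
set_option linter.unusedSectionVars false

namespace RD

open Finset

section col

variable {ι : Type} [Fintype ι] [DecidableEq ι]

theorem CRT_per {K : Type} (Λ : ℕ) (Φ : ℤ → (K → ι → Bool) → ℝ)
    (hper : ∀ n B, Φ (n + Λ) B = Φ n B) (r : ℕ) (q : ℕ) (B : K → ι → Bool) :
    Φ ((r : ℤ) + (Λ : ℤ) * (q : ℤ)) B = Φ r B := by
  induction q with
  | zero => simp
  | succ q ih =>
    have : (r : ℤ) + (Λ : ℤ) * ((q + 1 : ℕ) : ℤ) = ((r : ℤ) + (Λ : ℤ) * (q : ℤ)) + Λ := by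
      push_cast; ring
    rw [this, hper, ih]

theorem CRT_inj (Λ : ℕ) (pr : ι → ℕ)
    (hc : Pairwise fun i j => Nat.Coprime (pr i) (pr j))
    (hΛc : ∀ i, Nat.Coprime Λ (pr i)) {n m : ℕ} (hn : n < Λ * ∏ i, pr i) (hm : m < Λ * ∏ i, pr i)
    (h0 : n % Λ = m % Λ) (h1 : ∀ i, n % pr i = m % pr i) : n = m := by
  have hP : (∏ i, pr i) ∣ ((m : ℤ) - n).natAbs := by
    apply Finset.prod_dvd_of_isRelPrime
    · intro i _ j _ hij
      exact (Nat.coprime_iff_isRelPrime.mp (hc hij))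
    · intro i _
      have := (Nat.modEq_iff_dvd (n := pr i) (a := n) (b := m)).mp (h1 i)
      exact Int.natCast_dvd.mp this
  have hL : Λ ∣ ((m : ℤ) - n).natAbs := by
    have := (Nat.modEq_iff_dvd (n := Λ) (a := n) (b := m)).mp h0
    exact Int.natCast_dvd.mp this
  have hcop : Nat.Coprime Λ (∏ i, pr i) := Nat.Coprime.prod_right fun i _ => hΛc i
  have hall : Λ * ∏ i, pr i ∣ ((m : ℤ) - n).natAbs := hcop.mul_dvd_of_dvd_of_dvd hL hP
  have hlt : ((m : ℤ) - n).natAbs < Λ * ∏ i, pr i := by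
    omega
  have := Nat.eq_zero_of_dvd_of_lt hall hlt
  omega

theorem crt {K : Type} [Fintype K] [DecidableEq K] (Λ : ℕ) (hΛ : 0 < Λ) (pr : ι → ℕ)
    (hpr : ∀ i, 0 < pr i) (hc : Pairwise fun i j => Nat.Coprime (pr i) (pr j))
    (hΛc : ∀ i, Nat.Coprime Λ (pr i)) (pos : K → ℤ) (Φ : ℤ → (K → ι → Bool) → ℝ)
    (hΦ : ∀ n B, 0 ≤ Φ n B) (hper : ∀ n B, Φ (n + Λ) B = Φ n B) :
    ∑ n ∈ range (Λ * ∏ i, pr i), Φ n (fun k i => decide ((pr i : ℤ) ∣ (n : ℤ) - pos k))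
      ≤ ∑ n ∈ range Λ, ∑ a ∈ Fintype.piFinset (fun i => range (pr i)),
        Φ n (fun k i => decide ((pr i : ℤ) ∣ (a i : ℤ) - pos k)) := by
  classical
  rw [← Finset.sum_product']
  let f : ℕ → ℕ × (ι → ℕ) := fun n => (n % Λ, fun i => n % pr i)
  let G : ℕ × (ι → ℕ) → ℝ := fun x =>
    Φ (x.1 : ℤ) (fun k i => decide ((pr i : ℤ) ∣ ((x.2 i : ℕ) : ℤ) - pos k))
  have hinj : Set.InjOn f (range (Λ * ∏ i, pr i) : Finset ℕ) := by
    intro n hn m hm hnm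
    have hn' : n < Λ * ∏ i, pr i := by simpa using hn
    have hm' : m < Λ * ∏ i, pr i := by simpa using hm
    have h0 : n % Λ = m % Λ := congrArg Prod.fst hnm
    have h1 : ∀ i, n % pr i = m % pr i := fun i => congrFun (congrArg Prod.snd hnm) i
    exact CRT_inj Λ pr hc hΛc hn' hm' h0 h1
  have heq : ∑ n ∈ range (Λ * ∏ i, pr i), Φ n (fun k i => decide ((pr i : ℤ) ∣ (n : ℤ) - pos k))
      = ∑ n ∈ range (Λ * ∏ i, pr i), G (f n) := by
    apply Finset.sum_congr rfl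
    intro n _
    have hB : (fun (k : K) (i : ι) => decide ((pr i : ℤ) ∣ (n : ℤ) - pos k))
        = fun (k : K) (i : ι) => decide ((pr i : ℤ) ∣ ((n % pr i : ℕ) : ℤ) - pos k) := by
      funext k i
      apply decide_eq_decide.mpr
      have hd : (pr i : ℤ) ∣ (n : ℤ) - ((n % pr i : ℕ) : ℤ) := by
        refine ⟨((n / pr i : ℕ) : ℤ), ?_⟩
        have := Nat.mod_add_div n (pr i)
        have h2 : (n : ℤ) = ((n % pr i : ℕ) : ℤ) + (pr i : ℤ) * ((n / pr i : ℕ) : ℤ) := by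
          exact_mod_cast this.symm
        linarith
      have he : (n : ℤ) - pos k = ((n : ℤ) - ((n % pr i : ℕ) : ℤ)) +
          (((n % pr i : ℕ) : ℤ) - pos k) := by ring
      rw [he]
      exact (Int.dvd_add_right hd)
    rw [hB]
    have h2 : (n : ℤ) = ((n % Λ : ℕ) : ℤ) + (Λ : ℤ) * ((n / Λ : ℕ) : ℤ) := by
      exact_mod_cast (Nat.mod_add_div n Λ).symm
    show Φ (n : ℤ) _ = Φ (((n % Λ : ℕ) : ℤ)) _
    conv_lhs => rw [h2]
    exact CRT_per Λ Φ hper (n % Λ) (n / Λ) _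
  rw [heq, ← Finset.sum_image (f := G) hinj]
  apply Finset.sum_le_sum_of_subset_of_nonneg
  · intro x hx
    obtain ⟨n, _, rfl⟩ := Finset.mem_image.mp hx
    simp only [f, Finset.mem_product, Finset.mem_range, Fintype.mem_piFinset]
    exact ⟨Nat.mod_lt _ hΛ, fun i => Nat.mod_lt _ (hpr i)⟩
  · intro x _ _
    exact hΦ _ _

end col

end RD

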