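import Pool.Agent.LibRD13.Def

set_option autoImplicit false
set_option linter.unusedSectionVars false

namespace RD

open Finset

theorem DOM_exp (u : ℝ) (hu : 0 ≤ u) : Real.exp u ≤ (1 + u) * Real.exp (u ^ 2) := by
  have h1 : (u ^ 2 - u) + 1 ≤ Real.exp (u ^ 2 - u) := Real.add_one_le_exp _
  have h2 : Real.exp (u ^ 2) = Real.exp (u ^ 2 - u) * Real.exp u := by
    rw [← Real.exp_add]; congr 1; ring
  rw [h2]
  have h3 : 0 < Real.exp u := Real.exp_pos u
  have h4 : 1 ≤ (1 + u) * Real.exp (u ^ 2 - u) := by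
    have : (1 + u) * ((u ^ 2 - u) + 1) ≤ (1 + u) * Real.exp (u ^ 2 - u) :=
      mul_le_mul_of_nonneg_left h1 (by linarith)
    have h5 : (1 + u) * ((u ^ 2 - u) + 1) = 1 + u ^ 3 := by ring
    have h6 : 0 ≤ u ^ 3 := by positivity
    linarith
  nlinarith [mul_le_mul_of_nonneg_right h4 h3.le]

theorem DOM_key (m h : ℕ) (hm : 0 < m) :
    (m : ℝ) ≤ ((m : ℝ) + h) * Real.exp (((h : ℝ) / m) ^ 2) * ((m : ℝ) / (m + 1)) ^ h := by
  have hm' : (0 : ℝ) < m := by exact_mod_cast hm
  have hu : 0 ≤ (h : ℝ) / m := by positivity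
  have h1 := DOM_exp ((h : ℝ) / m) hu
  have h2 : (1 + 1 / (m : ℝ)) ^ h ≤ Real.exp ((h : ℝ) / m) := by
    have h3 : 1 + 1 / (m : ℝ) ≤ Real.exp (1 / (m : ℝ)) := by
      have := Real.add_one_le_exp (1 / (m : ℝ)); linarith
    calc (1 + 1 / (m : ℝ)) ^ h ≤ Real.exp (1 / (m : ℝ)) ^ h :=
          pow_le_pow_left₀ (by positivity) h3 h
      _ = Real.exp ((h : ℝ) / m) := by
          rw [← Real.exp_nat_mul]; congr 1; ring
  have h4 : (1 + 1 / (m : ℝ)) ^ h ≤ (1 + (h : ℝ) / m) * Real.exp (((h : ℝ) / m) ^ 2) := h2.trans h1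
  have h5 : ((m : ℝ) / (m + 1)) ^ h * (1 + 1 / (m : ℝ)) ^ h = 1 := by
    rw [← mul_pow]
    have : (m : ℝ) / (m + 1) * (1 + 1 / (m : ℝ)) = 1 := by field_simp
    rw [this, one_pow]
  have h6 : (0 : ℝ) ≤ ((m : ℝ) / (m + 1)) ^ h := by positivity
  have h7 := mul_le_mul_of_nonneg_left h4 h6
  rw [h5] at h7
  have h8 := mul_le_mul_of_nonneg_left h7 hm'.le
  have h9 : (m : ℝ) * (((m : ℝ) / (m + 1)) ^ h * ((1 + (h : ℝ) / m) * Real.exp (((h : ℝ) / m) ^ 2)))
      = ((m : ℝ) + h) * Real.exp (((h : ℝ) / m) ^ 2) * ((m : ℝ) / (m + 1)) ^ h := by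
    have : (m : ℝ) * (1 + (h : ℝ) / m) = (m : ℝ) + h := by field_simp
    calc (m : ℝ) * (((m : ℝ) / (m + 1)) ^ h * ((1 + (h : ℝ) / m) * Real.exp (((h : ℝ) / m) ^ 2)))
        = ((m : ℝ) * (1 + (h : ℝ) / m)) * Real.exp (((h : ℝ) / m) ^ 2) * ((m : ℝ) / (m + 1)) ^ h := by
          ring
      _ = _ := by rw [this]
  rw [h9] at h8
  linarith

/-- the residue of `x` in `[0, p)` -/
theorem DOM_res (p : ℕ) (hp : 0 < p) (x : ℤ) :
    ∃ a : ℕ, a < p ∧ ∀ b : ℕ, b < p → ((p : ℤ) ∣ (b : ℤ) - x ↔ b = a) := by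
  have hp' : (0 : ℤ) < p := by exact_mod_cast hp
  have h0 : 0 ≤ x % p := Int.emod_nonneg x hp'.ne'
  have h1 : x % p < p := Int.emod_lt_of_pos x hp'
  obtain ⟨a, ha⟩ := Int.eq_ofNat_of_zero_le h0
  refine ⟨a, ?_, ?_⟩
  · have : (a : ℤ) < p := by rw [← ha]; exact h1
    exact_mod_cast this
  · intro b hb
    have hx : (p : ℤ) ∣ (x % p) - x := by
      have := Int.emod_add_mul_ediv x p
      exact ⟨-(x / p), by linarith⟩
    have hb' : (b : ℤ) < p := by exact_mod_cast hb
    have ha' : (a : ℤ) < p := by rw [← ha]; exact h1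
    constructor
    · intro h
      have h2 : (p : ℤ) ∣ (b : ℤ) - a := by
        have h3 := dvd_sub h hx
        rw [ha] at h3
        have : (b : ℤ) - x - ((a : ℤ) - x) = (b : ℤ) - a := by ring
        rw [← this]; exact h3
      have h4 : (b : ℤ) - a = 0 := by
        apply Int.eq_zero_of_abs_lt_dvd h2
        rw [abs_lt]; constructor <;> omega
      omega
    · rintro rfl
      rw [← ha]; exact hx

section col

variable {ι : Type} [Fintype ι] [DecidableEq ι]

/-- one prime -/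
theorem DOM_one {K : Type} [Fintype K] [DecidableEq K] (p : ℕ) (pos : K → ℤ)
    (hK : Fintype.card K < p)
    (hpos : ∀ k k', k ≠ k' → ¬ (p : ℤ) ∣ pos k - pos k') (c : K → Bool) :
    ((#{a ∈ range p | (fun k => decide ((p : ℤ) ∣ ((a : ℕ) : ℤ) - pos k)) = c} : ℕ) : ℝ)
      ≤ (p : ℝ) * Real.exp (((Fintype.card K : ℝ) / ((p : ℝ) - Fintype.card K)) ^ 2) *
        ∏ k, (if c k = true then 1 / ((p : ℝ) - Fintype.card K + 1)
          else 1 - 1 / ((p : ℝ) - Fintype.card K + 1)) := by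
  classical
  have hp : 0 < p := by omega
  set h := Fintype.card K with hh
  obtain ⟨m, hm⟩ := Nat.exists_eq_add_of_lt hK
  -- p = h + m + 1
  have hpm : (p : ℝ) = ((m + 1 : ℕ) : ℝ) + h := by rw [hm]; push_cast; ring
  have hsub : (p : ℝ) - h = ((m + 1 : ℕ) : ℝ) := by rw [hpm]; ring
  have hkey := DOM_key (m + 1) h (Nat.succ_pos m)
  rw [hsub]
  rw [← hpm] at hkey
  have hM : (0 : ℝ) < ((m + 1 : ℕ) : ℝ) := by exact_mod_cast Nat.succ_pos m
  have hβ : 1 - 1 / (((m + 1 : ℕ) : ℝ) + 1) = ((m + 1 : ℕ) : ℝ) / (((m + 1 : ℕ) : ℝ) + 1) := by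
    field_simp; ring
  rw [hβ]
  set M : ℝ := ((m + 1 : ℕ) : ℝ) with hMdef
  have hA : 0 ≤ (p : ℝ) * Real.exp (((h : ℝ) / M) ^ 2) := by positivity
  choose r hr1 hr2 using fun k => DOM_res p hp (pos k)
  have hrinj : Function.Injective r := by
    intro k k' hkk
    by_contra hne
    apply hpos k k' hne
    have e1 := (hr2 k (r k) (hr1 k)).mpr rfl
    have e2 := (hr2 k' (r k) (hr1 k)).mpr hkk
    have := dvd_sub e2 e1
    have e3 : ((r k : ℕ) : ℤ) - pos k' - (((r k : ℕ) : ℤ) - pos k) = pos k - pos k' := by ring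
    rw [e3] at this
    exact this
  by_cases hc0 : ∀ k, c k = false
  · -- all false
    have hprod : ∏ k, (if c k = true then 1 / (M + 1) else M / (M + 1)) = (M / (M + 1)) ^ h := by
      rw [Finset.prod_congr rfl (g := fun _ => M / (M + 1))]
      · rw [Finset.prod_const, Finset.card_univ]
      · intro k _
        rw [hc0 k]; simp
    rw [hprod]
    refine le_trans ?_ hkey
    have hcard : #{a ∈ range p | (fun k => decide ((p : ℤ) ∣ ((a : ℕ) : ℤ) - pos k)) = c} ≤ m + 1 := by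
      have hsubs : {a ∈ range p | (fun k => decide ((p : ℤ) ∣ ((a : ℕ) : ℤ) - pos k)) = c}
          ⊆ range p \ (Finset.univ.image r) := by
        intro a ha
        rw [Finset.mem_filter, Finset.mem_range] at ha
        rw [Finset.mem_sdiff, Finset.mem_range]
        refine ⟨ha.1, ?_⟩
        intro hmem
        obtain ⟨k, _, hk⟩ := Finset.mem_image.mp hmem
        have h1 := congrFun ha.2 k
        rw [hc0 k] at h1
        have h2 : ¬ (p : ℤ) ∣ (a : ℤ) - pos k := by simpa using h1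
        exact h2 ((hr2 k a ha.1).mpr hk.symm)
      have h3 := Finset.card_le_card hsubs
      have h4 : Finset.univ.image r ⊆ range p := by
        intro a ha
        obtain ⟨k, _, hk⟩ := Finset.mem_image.mp ha
        rw [Finset.mem_range, ← hk]; exact hr1 k
      rw [Finset.card_sdiff_of_subset h4, Finset.card_range, Finset.card_image_of_injective _ hrinj,
        Finset.card_univ, ← hh] at h3
      omega
    rw [hMdef]
    exact Nat.cast_le.mpr hcard
  · push Not at hc0
    obtain ⟨k0, hk0⟩ := hc0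
    have hk0' : c k0 = true := by simpa using hk0
    have hsubs : {a ∈ range p | (fun k => decide ((p : ℤ) ∣ ((a : ℕ) : ℤ) - pos k)) = c} ⊆ {r k0} := by
      intro a ha
      rw [Finset.mem_filter, Finset.mem_range] at ha
      rw [Finset.mem_singleton]
      have h1 := congrFun ha.2 k0
      rw [hk0'] at h1
      have h2 : (p : ℤ) ∣ (a : ℤ) - pos k0 := by simpa using h1
      exact (hr2 k0 a ha.1).mp h2
    have hcard1 : #{a ∈ range p | (fun k => decide ((p : ℤ) ∣ ((a : ℕ) : ℤ) - pos k)) = c} ≤ 1 := by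
      have := Finset.card_le_card hsubs
      simpa using this
    by_cases h2 : ∃ k1, k1 ≠ k0 ∧ c k1 = true
    · obtain ⟨k1, hne, hk1⟩ := h2
      have hempty : {a ∈ range p | (fun k => decide ((p : ℤ) ∣ ((a : ℕ) : ℤ) - pos k)) = c} = ∅ := by
        apply Finset.eq_empty_of_forall_notMem
        intro a ha
        rw [Finset.mem_filter, Finset.mem_range] at ha
        have e0 := congrFun ha.2 k0
        have e1 := congrFun ha.2 k1
        rw [hk0'] at e0
        rw [hk1] at e1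
        have f0 : (p : ℤ) ∣ (a : ℤ) - pos k0 := by simpa using e0
        have f1 : (p : ℤ) ∣ (a : ℤ) - pos k1 := by simpa using e1
        have g0 := (hr2 k0 a ha.1).mp f0
        have g1 := (hr2 k1 a ha.1).mp f1
        exact hne (hrinj (g1.symm.trans g0))
      rw [hempty]
      simp only [Finset.card_empty, Nat.cast_zero]
      apply mul_nonneg hA
      apply Finset.prod_nonneg
      intro k _
      split_ifs <;> positivity
    · push Not at h2
      have hprod : ∏ k, (if c k = true then 1 / (M + 1) else M / (M + 1))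
          = 1 / (M + 1) * (M / (M + 1)) ^ (h - 1) := by
        rw [← Finset.mul_prod_erase _ _ (Finset.mem_univ k0), if_pos hk0']
        congr 1
        rw [Finset.prod_congr rfl (g := fun _ => M / (M + 1))]
        · rw [Finset.prod_const, Finset.card_erase_of_mem (Finset.mem_univ k0), Finset.card_univ]
        · intro k hk
          rw [if_neg (h2 k (Finset.ne_of_mem_erase hk))]
      rw [hprod]
      have hcr : ((#{a ∈ range p | (fun k => decide ((p : ℤ) ∣ ((a : ℕ) : ℤ) - pos k)) = c} : ℕ) : ℝ)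
          ≤ 1 := by exact_mod_cast hcard1
      refine le_trans hcr ?_
      have hh1 : 1 ≤ h := by
        rw [hh]; exact Fintype.card_pos_iff.mpr ⟨k0⟩
      obtain ⟨g, hg⟩ := Nat.exists_eq_add_of_le hh1
      rw [hg] at hkey ⊢
      rw [show 1 + g - 1 = g by omega]
      rw [pow_add, pow_one] at hkey
      have hpos1 : (0 : ℝ) < M + 1 := by positivity
      have e : (p : ℝ) * Real.exp (((1 + g : ℕ) : ℝ) / M) ^ 2 = (p : ℝ) * Real.exp (((1 + g : ℕ) : ℝ) / M) ^ 2 := rfl
      have hdiv : M * 1 ≤ M * ((p : ℝ) * Real.exp ((((1 + g : ℕ) : ℝ) / M) ^ 2) *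
          (1 / (M + 1) * (M / (M + 1)) ^ g)) := by
        have e2 : M * ((p : ℝ) * Real.exp ((((1 + g : ℕ) : ℝ) / M) ^ 2) *
          (1 / (M + 1) * (M / (M + 1)) ^ g))
            = (p : ℝ) * Real.exp ((((1 + g : ℕ) : ℝ) / M) ^ 2) *
              (M / (M + 1) * (M / (M + 1)) ^ g) := by
          ring
        rw [e2, mul_one]
        exact hkey
      exact le_of_mul_le_mul_left hdiv hM

theorem dom {K : Type} [Fintype K] [DecidableEq K] (pr : ι → ℕ) (pos : K → ℤ)
    (hK : ∀ i, Fintype.card K < pr i)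
    (hpos : ∀ i k k', k ≠ k' → ¬ (pr i : ℤ) ∣ pos k - pos k')
    (Ψ : (K → ι → Bool) → ℝ) (hΨ : ∀ B, 0 ≤ Ψ B) :
    ∑ a ∈ Fintype.piFinset (fun i => range (pr i)),
        Ψ (fun k i => decide ((pr i : ℤ) ∣ (a i : ℤ) - pos k))
      ≤ (∏ i, (pr i : ℝ)) * gam pr (Fintype.card K) *
        ∑ B : K → ι → Bool, (∏ k, cw (bet pr (Fintype.card K)) (B k)) * Ψ B := by
  classical
  let F : (ι → ℕ) → (K → ι → Bool) := fun a k i => decide ((pr i : ℤ) ∣ (a i : ℤ) - pos k)
  have h1 : ∑ a ∈ Fintype.piFinset (fun i => range (pr i)),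
        Ψ (fun k i => decide ((pr i : ℤ) ∣ (a i : ℤ) - pos k))
      = ∑ B : K → ι → Bool, ∑ a ∈ Fintype.piFinset (fun i => range (pr i)) with F a = B, Ψ B := by
    rw [← Finset.sum_fiberwise (s := Fintype.piFinset (fun i => range (pr i))) (g := F)]
    apply Finset.sum_congr rfl
    intro B _
    apply Finset.sum_congr rfl
    intro a ha
    have := (Finset.mem_filter.mp ha).2
    show Ψ (F a) = Ψ B
    rw [this]
  rw [h1, Finset.mul_sum]
  apply Finset.sum_le_sum
  intro B _
  rw [Finset.sum_const, nsmul_eq_mul]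
  have h2 : (Fintype.piFinset (fun i => range (pr i))).filter (fun a => F a = B)
      = Fintype.piFinset (fun i => {x ∈ range (pr i) |
          (fun k => decide ((pr i : ℤ) ∣ ((x : ℕ) : ℤ) - pos k)) = fun k => B k i}) := by
    ext a
    simp only [Finset.mem_filter, Fintype.mem_piFinset]
    constructor
    · rintro ⟨ha, hF⟩ i
      refine ⟨ha i, ?_⟩
      funext k
      exact congrFun (congrFun hF k) i
    · intro ha
      refine ⟨fun i => (ha i).1, ?_⟩
      funext k i
      exact congrFun (ha i).2 k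
  rw [h2, Fintype.card_piFinset, Nat.cast_prod]
  rw [← mul_assoc]
  apply mul_le_mul_of_nonneg_right _ (hΨ B)
  have h3 : (∏ i, (pr i : ℝ)) * gam pr (Fintype.card K) *
      (∏ k, cw (bet pr (Fintype.card K)) (B k))
      = ∏ i, ((pr i : ℝ) * Real.exp (((Fintype.card K : ℝ) / ((pr i : ℝ) - Fintype.card K)) ^ 2) *
        ∏ k, (if B k i = true then 1 / ((pr i : ℝ) - Fintype.card K + 1)
          else 1 - 1 / ((pr i : ℝ) - Fintype.card K + 1))) := by
    rw [Finset.prod_mul_distrib, Finset.prod_mul_distrib]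
    unfold gam cw bet
    rw [Finset.prod_comm]
  rw [h3]
  apply Finset.prod_le_prod
  · intro i _
    exact Nat.cast_nonneg _
  · intro i _
    exact DOM_one (pr i) pos (hK i) (hpos i) (fun k => B k i)

end col

end RD

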