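import Pool.Agent.LibRD13.Def

set_option autoImplicit false
set_option linter.unusedSectionVars false

namespace RD

open Finset

variable {ι : Type} [Fintype ι] [DecidableEq ι]

/-- sum of inverse squares of distinct integers above `K` -/
theorem GAM_sum_sq (f : ι → ℕ) (hf : Function.Injective f) (K : ℕ) (hK : 1 ≤ K)
    (h : ∀ i, K < f i) : ∑ i, (((f i : ℕ) : ℝ) ^ 2)⁻¹ ≤ ((K : ℕ) : ℝ)⁻¹ := by
  have h1 : ∑ i, (((f i : ℕ) : ℝ) ^ 2)⁻¹ = ∑ m ∈ univ.image f, (((m : ℕ) : ℝ) ^ 2)⁻¹ := by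
    rw [sum_image (fun a _ b _ hab => hf hab)]
  rw [h1]
  set N := (univ.image f).sup id + K with hN
  have h2 : univ.image f ⊆ Ioc K N := by
    intro m hm
    have hm' := hm
    rw [mem_image] at hm
    obtain ⟨i, _, rfl⟩ := hm
    rw [mem_Ioc]
    refine ⟨h i, ?_⟩
    have : id (f i) ≤ (univ.image f).sup id := le_sup hm'
    simp only [id] at this
    omega
  have h3 : ∑ m ∈ univ.image f, (((m : ℕ) : ℝ) ^ 2)⁻¹ ≤ ∑ m ∈ Ioc K N, (((m : ℕ) : ℝ) ^ 2)⁻¹ :=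
    sum_le_sum_of_subset_of_nonneg h2 (fun m _ _ => by positivity)
  have h4 : ∑ m ∈ Ioc K N, (((m : ℕ) : ℝ) ^ 2)⁻¹ ≤ ((K : ℕ) : ℝ)⁻¹ - ((N : ℕ) : ℝ)⁻¹ :=
    sum_Ioc_inv_sq_le_sub (by omega) (by omega)
  have h5 : 0 ≤ ((N : ℕ) : ℝ)⁻¹ := by positivity
  linarith

theorem GAM_sub (pr : ι → ℕ) (hinj : Function.Injective pr) (k : ℕ) (hk : 1 ≤ k)
    (h : ∀ i, k ^ 2 + k < pr i) :
    ∑ i, (((pr i : ℝ) - k) ^ 2)⁻¹ ≤ (((k ^ 2 : ℕ) : ℝ))⁻¹ := by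
  have hinj' : Function.Injective fun i => pr i - k := by
    intro a b hab
    apply hinj
    have ha := h a
    have hb := h b
    simp only at hab
    omega
  have h1 := GAM_sum_sq (fun i => pr i - k) hinj' (k ^ 2) (Nat.one_le_pow _ _ (by omega))
    (fun i => by have := h i; omega)
  refine le_trans (le_of_eq ?_) h1
  apply sum_congr rfl
  intro i _
  have hi : k ≤ pr i := by have := h i; omega
  rw [Nat.cast_sub hi]

theorem gam_le (pr : ι → ℕ) (hinj : Function.Injective pr) (k : ℕ) (hk : 1 ≤ k)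
    (h : ∀ i, k ^ 2 + k < pr i) : gam pr k ≤ Real.exp 1 := by
  unfold gam
  rw [← Real.exp_sum]
  apply Real.exp_le_exp.mpr
  have h1 := GAM_sub pr hinj k hk h
  have hk0 : (0 : ℝ) < (k : ℝ) ^ 2 := by
    have : (0 : ℝ) < k := by exact_mod_cast hk
    positivity
  have h2 : ∑ i, ((k : ℝ) / ((pr i : ℝ) - k)) ^ 2 = (k : ℝ) ^ 2 * ∑ i, (((pr i : ℝ) - k) ^ 2)⁻¹ := by
    rw [mul_sum]
    apply sum_congr rfl
    intro i _
    rw [div_pow, div_eq_mul_inv]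
  rw [h2]
  push_cast at h1
  calc (k : ℝ) ^ 2 * ∑ i, (((pr i : ℝ) - k) ^ 2)⁻¹ ≤ (k : ℝ) ^ 2 * ((k : ℝ) ^ 2)⁻¹ :=
        mul_le_mul_of_nonneg_left h1 hk0.le
    _ = 1 := mul_inv_cancel₀ hk0.ne'

theorem bet_mem (pr : ι → ℕ) (k : ℕ) (h : ∀ i, k < pr i) (i : ι) :
    0 ≤ bet pr k i ∧ bet pr k i ≤ 1 := by
  unfold bet
  have h1 : (k : ℝ) < pr i := by exact_mod_cast h i
  have h2 : (0 : ℝ) < (pr i : ℝ) - k + 1 := by linarith
  refine ⟨by positivity, ?_⟩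
  rw [div_le_one h2]
  linarith

theorem bet_sum_ge (pr : ι → ℕ) (k : ℕ) (hk : 1 ≤ k) (h : ∀ i, k < pr i) :
    ∑ i, (1 : ℝ) / pr i ≤ ∑ i, bet pr k i := by
  apply sum_le_sum
  intro i _
  unfold bet
  have h1 : (k : ℝ) < pr i := by exact_mod_cast h i
  have h2 : (1 : ℝ) ≤ k := by exact_mod_cast hk
  apply one_div_le_one_div_of_le
  · linarith
  · linarith

theorem bet_sum_le (pr : ι → ℕ) (hinj : Function.Injective pr) (k : ℕ) (hk : 1 ≤ k)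
    (h : ∀ i, k ^ 2 + k < pr i) : ∑ i, bet pr k i ≤ ∑ i, (1 : ℝ) / pr i + 2 := by
  have h1 := GAM_sub pr hinj k hk h
  have hk1 : (1 : ℝ) ≤ k := by exact_mod_cast hk
  have h2 : ∑ i, bet pr k i ≤ ∑ i, ((1 : ℝ) / pr i + (k : ℝ) * (((pr i : ℝ) - k) ^ 2)⁻¹) := by
    apply sum_le_sum
    intro i _
    unfold bet
    have h3 : (k : ℝ) ^ 2 + k < pr i := by exact_mod_cast h i
    have h4 : (0 : ℝ) < (pr i : ℝ) - k := by nlinarith
    have h5 : (0 : ℝ) < (pr i : ℝ) := by nlinarith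
    have h6 : (0 : ℝ) < (pr i : ℝ) - k + 1 := by linarith
    have h7 : 1 / ((pr i : ℝ) - k + 1) = 1 / (pr i : ℝ) + ((k : ℝ) - 1) / ((pr i : ℝ) * ((pr i : ℝ) - k + 1)) := by
      field_simp
      ring
    rw [h7]
    have h8 : ((k : ℝ) - 1) / ((pr i : ℝ) * ((pr i : ℝ) - k + 1)) ≤ (k : ℝ) * (((pr i : ℝ) - k) ^ 2)⁻¹ := by
      rw [← div_eq_mul_inv]
      apply div_le_div₀ (by linarith) (by linarith) (by positivity)
      nlinarith
    linarith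
  refine le_trans h2 ?_
  rw [sum_add_distrib, ← mul_sum]
  push_cast at h1
  have h9 : (k : ℝ) * ∑ i, (((pr i : ℝ) - k) ^ 2)⁻¹ ≤ (k : ℝ) * ((k : ℝ) ^ 2)⁻¹ :=
    mul_le_mul_of_nonneg_left h1 (by linarith)
  have h10 : (k : ℝ) * ((k : ℝ) ^ 2)⁻¹ ≤ 1 := by
    have : (0 : ℝ) < k := by linarith
    rw [← div_eq_mul_inv, div_le_one (by positivity)]
    nlinarith
  linarith

end RD
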