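import Pool.Agent.LibRD13.Def

/-! Combinations of indicators of residue classes. -/

set_option autoImplicit false
set_option linter.unusedSectionVars false

namespace RD

open Finset

theorem rep_mono {Λ : ℕ} {Γ Γ' : ℝ} {F : ℤ → ℝ} (h : Rep Λ Γ F) (hΓ : Γ ≤ Γ') : Rep Λ Γ' F := by
  obtain ⟨ι, hι, c, q, b, h1, h2, h3⟩ := h
  exact ⟨ι, hι, c, q, b, h1, h2, h3.trans hΓ⟩

theorem rep_nonneg {Λ : ℕ} {Γ : ℝ} {F : ℤ → ℝ} (h : Rep Λ Γ F) : 0 ≤ Γ := by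
  obtain ⟨ι, hι, c, q, b, h1, h2, h3⟩ := h
  exact (Finset.sum_nonneg fun i _ => abs_nonneg (c i)).trans h3

theorem rep_dvd_mono {Λ Λ' : ℕ} {Γ : ℝ} {F : ℤ → ℝ} (h : Rep Λ Γ F) (hd : Λ ∣ Λ') :
    Rep Λ' Γ F := by
  obtain ⟨ι, hι, c, q, b, h1, h2, h3⟩ := h
  exact ⟨ι, hι, c, q, b, fun i => ⟨(h1 i).1, (h1 i).2.trans hd⟩, h2, h3⟩

theorem rep_const {Λ : ℕ} (hΛ : 0 < Λ) (c : ℝ) : Rep Λ |c| (fun _ => c) := by
  refine ⟨Unit, inferInstance, fun _ => c, fun _ => 1, fun _ => 0, fun _ => ⟨one_pos, one_dvd _⟩,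
    fun n => ?_, ?_⟩
  · simp
  · simp

theorem rep_ind {Λ d : ℕ} (hd : 0 < d) (h : d ∣ Λ) (k : ℤ) : Rep Λ 1 (fun n => ind d (n - k)) := by
  refine ⟨Unit, inferInstance, fun _ => 1, fun _ => d, fun _ => k, fun _ => ⟨hd, h⟩,
    fun n => ?_, ?_⟩
  · unfold ind
    simp
  · simp

theorem rep_add {Λ : ℕ} {Γ Γ' : ℝ} {F G : ℤ → ℝ} (hF : Rep Λ Γ F) (hG : Rep Λ Γ' G) :
    Rep Λ (Γ + Γ') (fun n => F n + G n) := by
  obtain ⟨ι, hι, c, q, b, h1, h2, h3⟩ := hF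
  obtain ⟨ι', hι', c', q', b', h1', h2', h3'⟩ := hG
  refine ⟨ι ⊕ ι', inferInstance, Sum.elim c c', Sum.elim q q', Sum.elim b b', ?_, ?_, ?_⟩
  · rintro (i | i)
    · exact h1 i
    · exact h1' i
  · intro n
    simp only
    rw [Fintype.sum_sum_type, h2, h2']
    rfl
  · rw [Fintype.sum_sum_type]
    exact add_le_add h3 h3'

theorem rep_smul {Λ : ℕ} {Γ : ℝ} {F : ℤ → ℝ} (c : ℝ) (hF : Rep Λ Γ F) :
    Rep Λ (|c| * Γ) (fun n => c * F n) := by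
  obtain ⟨ι, hι, c', q, b, h1, h2, h3⟩ := hF
  refine ⟨ι, hι, fun i => c * c' i, q, b, h1, fun n => ?_, ?_⟩
  · simp only
    rw [h2, Finset.mul_sum]
    exact Finset.sum_congr rfl fun i _ => by ring
  · simp only [abs_mul]
    rw [← Finset.mul_sum]
    exact mul_le_mul_of_nonneg_left h3 (abs_nonneg c)

theorem rep_sum {α : Type} {Λ : ℕ} (s : Finset α) (Γ : α → ℝ) (F : α → ℤ → ℝ)
    (h : ∀ a ∈ s, Rep Λ (Γ a) (F a)) : Rep Λ (∑ a ∈ s, Γ a) (fun n => ∑ a ∈ s, F a n) := by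
  classical
  induction s using Finset.induction_on with
  | empty =>
    refine ⟨Empty, inferInstance, fun _ => 0, fun _ => 1, fun _ => 0,
      fun _ => ⟨one_pos, one_dvd _⟩, fun n => ?_, ?_⟩
    · simp
    · simp
  | insert a s ha ih =>
    simp only [Finset.sum_insert ha]
    exact rep_add (h a (Finset.mem_insert_self a s))
      (ih fun b hb => h b (Finset.mem_insert_of_mem hb))

theorem rep_per {Λ : ℕ} {Γ : ℝ} {F : ℤ → ℝ} (h : Rep Λ Γ F) (n : ℤ) : F (n + Λ) = F n := by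
  obtain ⟨ι, hι, c, q, b, h1, h2, h3⟩ := h
  rw [h2, h2]
  refine Finset.sum_congr rfl fun i _ => ?_
  have hq : (q i : ℤ) ∣ (Λ : ℤ) := by exact_mod_cast (h1 i).2
  have e : n + (Λ : ℤ) - b i = n - b i + Λ := by ring
  have h4 : (q i : ℤ) ∣ n + Λ - b i ↔ (q i : ℤ) ∣ n - b i := by
    rw [e]
    exact (dvd_add_left hq)
  simp only [h4]

end RD
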