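import Pool.Agent.LibRD13.Def
import Pool.Agent.LibLargeSieve.GBound

/-! row SELA of MP_699cde_nt -/

set_option autoImplicit false
set_option linter.unusedSectionVars false

namespace RD

open Finset

theorem SELA_mem {R q : ℕ} (h : q ∈ sqf R) : 1 ≤ q ∧ q ≤ R ∧ Squarefree q := by
  rw [sqf, mem_filter, mem_Icc] at h
  exact ⟨h.1.1, h.1.2, h.2⟩

theorem SELA_tot {R q : ℕ} (h : q ∈ sqf R) : (1 : ℝ) ≤ q.totient := by
  have h1 : 0 < q.totient := Nat.totient_pos.2 (SELA_mem h).1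
  exact_mod_cast h1

theorem one_le_gS (R : ℕ) (hR : 1 ≤ R) : 1 ≤ gS R := by
  have h1 : 1 ∈ sqf R := by
    rw [sqf, mem_filter, mem_Icc]
    exact ⟨⟨le_refl 1, hR⟩, squarefree_one⟩
  have h2 : (1 : ℝ) / (1 : ℕ).totient ≤ gS R :=
    single_le_sum (f := fun q : ℕ => (1 : ℝ) / q.totient) (fun q _ => by positivity) h1
  simpa using h2

theorem SELA_card (R : ℕ) : (#(sqf R) : ℝ) ≤ R := by
  have h1 : #(sqf R) ≤ #(Icc 1 R) := card_filter_le _ _
  rw [Nat.card_Icc, Nat.add_sub_cancel] at h1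
  exact_mod_cast h1

theorem gS_le (R : ℕ) : gS R ≤ R := by
  have h1 : gS R ≤ ∑ q ∈ sqf R, (1 : ℝ) := by
    refine sum_le_sum fun q hq => ?_
    have := SELA_tot hq
    rw [div_le_one (by linarith)]
    exact this
  rw [sum_const, nsmul_eq_mul, mul_one] at h1
  exact h1.trans (SELA_card R)

/-- `LSieve.log_le_G` of LibLargeSieve/GBound.lean with `B = ∅` -/
theorem gS_ge (R : ℕ) : Real.log R / 2 ≤ gS R := by
  have h1 := LSieve.log_le_G ∅ R (fun p hp => absurd hp (notMem_empty p))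
  have h2 : LSieve.V ∅ = 1 := by
    rw [LSieve.V, prod_empty]
  have h3 : LSieve.G ∅ R = gS R := by
    rw [LSieve.G, gS]
    refine sum_congr ?_ fun m _ => (one_div _).symm
    ext m
    rw [LSieve.mem_sieveSet, sqf, mem_filter, mem_Icc]
    simp
  rw [h2, h3] at h1
  linarith

theorem AA_rough (R : ℕ) (m : ℤ) (h : ∀ p : ℕ, p.Prime → p ≤ R → ¬ (p : ℤ) ∣ m) :
    AA R m = gS R := by
  rw [AA, gS]
  refine sum_congr rfl fun q hq => ?_
  rw [prod_eq_one, mul_one]
  intro p hp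
  have h1 := SELA_mem hq
  have h2 : p ≤ q := Nat.le_of_dvd h1.1 (Nat.dvd_of_mem_primeFactors hp)
  rw [ind, if_neg (h p (Nat.prime_of_mem_primeFactors hp) (h2.trans h1.2.1)), mul_zero, sub_zero]

theorem SELA_phi {q : ℕ} (hq : Squarefree q) :
    (q.totient : ℝ) = ∏ p ∈ q.primeFactors, ((p : ℝ) - 1) := by
  have h0 : q ≠ 0 := hq.ne_zero
  have h1 : q.totient = ∏ p ∈ q.primeFactors, (p - 1) := by
    have h2 := Nat.totient_mul_prod_primeFactors q
    rw [Nat.prod_primeFactors_of_squarefree hq] at h2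
    have h3 : q.totient * q = (∏ p ∈ q.primeFactors, (p - 1)) * q := by
      rw [h2, mul_comm]
    exact Nat.eq_of_mul_eq_mul_right (Nat.pos_of_ne_zero h0) h3
  rw [h1, Nat.cast_prod]
  refine prod_congr rfl fun p hp => ?_
  rw [Nat.cast_sub (Nat.prime_of_mem_primeFactors hp).one_le, Nat.cast_one]

theorem AA_abs (R : ℕ) (m : ℤ) : |AA R m| ≤ R := by
  rw [AA]
  refine (abs_sum_le_sum_abs _ _).trans ?_
  have h1 : ∑ q ∈ sqf R, |(1 / (q.totient : ℝ)) * ∏ p ∈ q.primeFactors, (1 - (p : ℝ) * ind p m)| ≤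
      ∑ q ∈ sqf R, (1 : ℝ) := by
    refine sum_le_sum fun q hq => ?_
    have h2 := SELA_tot hq
    rw [abs_mul, abs_prod, abs_of_nonneg (by positivity), SELA_phi (SELA_mem hq).2.2]
    have h3 : ∏ p ∈ q.primeFactors, |1 - (p : ℝ) * ind p m| ≤
        ∏ p ∈ q.primeFactors, ((p : ℝ) - 1) := by
      refine prod_le_prod (fun _ _ => abs_nonneg _) fun p hp => ?_
      have h4 : (2 : ℝ) ≤ p := by
        exact_mod_cast (Nat.prime_of_mem_primeFactors hp).two_le
      unfold ind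
      split_ifs
      · rw [mul_one, abs_of_nonpos (by linarith)]
        linarith
      · rw [mul_zero, sub_zero, abs_one]
        linarith
    rw [SELA_phi (SELA_mem hq).2.2] at h2
    rw [one_div, inv_mul_le_iff₀ (by linarith), mul_one]
    exact h3
  rw [sum_const, nsmul_eq_mul, mul_one] at h1
  exact h1.trans (SELA_card R)

theorem sS_nonneg (R : ℕ) (m : ℤ) : 0 ≤ sS R m := by
  unfold sS
  positivity

theorem sS_le (R : ℕ) (hR : 1 ≤ R) (m : ℤ) : sS R m ≤ (R : ℝ) ^ 2 := by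
  unfold sS
  have h1 := one_le_gS R hR
  have h2 := AA_abs R m
  have h3 : AA R m ^ 2 ≤ (R : ℝ) ^ 2 := by
    rw [← sq_abs]
    exact pow_le_pow_left₀ (abs_nonneg _) h2 2
  have h4 : 1 ≤ gS R ^ 2 := one_le_pow₀ h1
  exact (div_le_self (sq_nonneg _) h4).trans h3

theorem sS_rough (R : ℕ) (hR : 1 ≤ R) (m : ℤ) (h : ∀ p : ℕ, p.Prime → p ≤ R → ¬ (p : ℤ) ∣ m) :
    sS R m = 1 := by
  unfold sS
  rw [AA_rough R m h]
  have h1 := one_le_gS R hR
  exact div_self (by positivity)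

end RD
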