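import Pool.Agent.LibRD13.Def
import Pool.Agent.LibRD13.Repa

/-! Row REPB: products of combinations of residue classes. -/

set_option autoImplicit false
set_option linter.unusedSectionVars false

namespace RD

open Finset


theorem REPB_lcm (q q' : ℕ) (b b' t n : ℤ) (h : (q : ℤ) ∣ t - b) (h' : (q' : ℤ) ∣ t - b') :
    ((Nat.lcm q q' : ℕ) : ℤ) ∣ n - t ↔ (q : ℤ) ∣ n - b ∧ (q' : ℤ) ∣ n - b' := by
  have e1 : (q : ℤ) ∣ n - b ↔ (q : ℤ) ∣ n - t := by
    have e : n - b = (n - t) + (t - b) := by ring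
    rw [e]
    exact dvd_add_left h
  have e2 : (q' : ℤ) ∣ n - b' ↔ (q' : ℤ) ∣ n - t := by
    have e : n - b' = (n - t) + (t - b') := by ring
    rw [e]
    exact dvd_add_left h'
  rw [e1, e2]
  have e3 : ((Nat.lcm q q' : ℕ) : ℤ) = ((Int.lcm (q : ℤ) (q' : ℤ) : ℕ) : ℤ) := by
    simp [Int.lcm]
  rw [e3, Int.coe_lcm_dvd_iff]

/-- two residue classes meet in a residue class modulo the lcm or not at all -/
theorem rep_mul {Λ : ℕ} {Γ Γ' : ℝ} {F G : ℤ → ℝ} (hF : Rep Λ Γ F) (hG : Rep Λ Γ' G) :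
    Rep Λ (Γ * Γ') (fun n => F n * G n) := by
  classical
  obtain ⟨ι, hι, c, q, b, hq, hF, hc⟩ := hF
  obtain ⟨κ, hκ, c', q', b', hq', hG, hc'⟩ := hG
  let P : ι × κ → Prop := fun x => ∃ t : ℤ, (q x.1 : ℤ) ∣ t - b x.1 ∧ (q' x.2 : ℤ) ∣ t - b' x.2
  let B : ι × κ → ℤ := fun x => if h : P x then h.choose else 0
  refine ⟨ι × κ, inferInstance, fun x => if P x then c x.1 * c' x.2 else 0,
    fun x => Nat.lcm (q x.1) (q' x.2), B, ?_, ?_, ?_⟩
  · intro x
    exact ⟨Nat.lcm_pos (hq x.1).1 (hq' x.2).1, Nat.lcm_dvd (hq x.1).2 (hq' x.2).2⟩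
  · intro n
    show F n * G n = _
    rw [hF, hG, Finset.sum_mul_sum, ← Finset.univ_product_univ, Finset.sum_product]
    refine Finset.sum_congr rfl fun i _ => Finset.sum_congr rfl fun j _ => ?_
    show c i * (if (q i : ℤ) ∣ n - b i then 1 else 0)
        * (c' j * (if (q' j : ℤ) ∣ n - b' j then 1 else 0))
      = (if P (i, j) then c i * c' j else 0)
        * (if ((Nat.lcm (q i) (q' j) : ℕ) : ℤ) ∣ n - B (i, j) then 1 else 0)
    by_cases hP : P (i, j)
    · have hB : B (i, j) = hP.choose := dif_pos hP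
      have hs := hP.choose_spec
      rw [← hB] at hs
      have hl := REPB_lcm (q i) (q' j) (b i) (b' j) (B (i, j)) n hs.1 hs.2
      rw [if_pos hP]
      by_cases h1 : (q i : ℤ) ∣ n - b i
      · by_cases h2 : (q' j : ℤ) ∣ n - b' j
        · rw [if_pos h1, if_pos h2, if_pos (hl.2 ⟨h1, h2⟩)]
          ring
        · rw [if_pos h1, if_neg h2, if_neg (fun h => h2 (hl.1 h).2)]
          ring
      · rw [if_neg h1, if_neg (fun h => h1 (hl.1 h).1)]
        ring
    · rw [if_neg hP]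
      by_cases h1 : (q i : ℤ) ∣ n - b i
      · by_cases h2 : (q' j : ℤ) ∣ n - b' j
        · exact absurd ⟨n, h1, h2⟩ hP
        · rw [if_neg h2]
          ring
      · rw [if_neg h1]
        ring
  · have h0 : 0 ≤ Γ := (Finset.sum_nonneg fun i _ => abs_nonneg (c i)).trans hc
    have h1 : ∑ x : ι × κ, |(if P x then c x.1 * c' x.2 else 0 : ℝ)|
        ≤ ∑ x : ι × κ, |c x.1| * |c' x.2| := by
      refine Finset.sum_le_sum fun x _ => ?_
      by_cases hP : P x
      · rw [if_pos hP, abs_mul]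
      · rw [if_neg hP, abs_zero]
        exact mul_nonneg (abs_nonneg _) (abs_nonneg _)
    refine h1.trans ?_
    rw [← Finset.univ_product_univ, Finset.sum_product]
    have h2 : ∑ i : ι, ∑ j : κ, |c i| * |c' j| = (∑ i, |c i|) * ∑ j, |c' j| := by
      rw [Finset.sum_mul_sum]
    show ∑ i : ι, ∑ j : κ, |c i| * |c' j| ≤ _
    rw [h2]
    exact mul_le_mul hc hc' (Finset.sum_nonneg fun j _ => abs_nonneg _) h0

theorem rep_prod {α : Type} {Λ : ℕ} (hΛ : 0 < Λ) (s : Finset α) (Γ : α → ℝ) (F : α → ℤ → ℝ)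
    (h : ∀ a ∈ s, Rep Λ (Γ a) (F a)) : Rep Λ (∏ a ∈ s, Γ a) (fun n => ∏ a ∈ s, F a n) := by
  classical
  induction s using Finset.induction_on with
  | empty =>
    have h1 := rep_const hΛ 1
    rw [abs_one] at h1
    simpa using h1
  | insert a s ha ih =>
    have h1 := rep_mul (h a (Finset.mem_insert_self a s))
      (ih fun x hx => h x (Finset.mem_insert_of_mem hx))
    simp only [Finset.prod_insert ha]
    exact h1

end RD
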