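import Pool.Agent.LibRD13.Def
import Pool.Agent.LibRD13.Repa
import Pool.Agent.LibRD13.Repb
import Pool.Agent.LibRD13.Sela

/-! MP_699cde_nt: row SELB. -/

set_option autoImplicit false
set_option linter.unusedSectionVars false

namespace RD

open Finset


theorem selb_totient (q : ℕ) (hq : Squarefree q) :
    (q.totient : ℝ) = ∏ p ∈ q.primeFactors, ((p : ℝ) - 1) := by
  have h1 := Nat.totient_eq_mul_prod_factors q
  have h2 : ((q.totient : ℚ) : ℝ)
      = (((q : ℚ) * ∏ p ∈ q.primeFactors, (1 - (p : ℚ)⁻¹) : ℚ) : ℝ) := by rw [h1]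
  push_cast at h2
  rw [h2]
  have h3 : (q : ℝ) = ∏ p ∈ q.primeFactors, (p : ℝ) := by
    have h4 : (q : ℝ) = ((∏ p ∈ q.primeFactors, p : ℕ) : ℝ) :=
      congrArg _ (Nat.prod_primeFactors_of_squarefree hq).symm
    exact h4.trans (Nat.cast_prod _ _)
  calc (q : ℝ) * ∏ p ∈ q.primeFactors, (1 - (p : ℝ)⁻¹)
      = (∏ p ∈ q.primeFactors, (p : ℝ)) * ∏ p ∈ q.primeFactors, (1 - (p : ℝ)⁻¹) := by rw [← h3]
    _ = ∏ p ∈ q.primeFactors, ((p : ℝ) - 1) := by
        rw [← Finset.prod_mul_distrib]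
        refine Finset.prod_congr rfl fun p hp => ?_
        have hp0 : (p : ℝ) ≠ 0 := by
          have := (Nat.prime_of_mem_primeFactors hp).pos
          exact_mod_cast this.ne'
        rw [mul_sub, mul_one, mul_inv_cancel₀ hp0]

theorem selb_weight (q : ℕ) (hq : Squarefree q) (hq0 : 0 < q) :
    1 / (q.totient : ℝ) * ∏ p ∈ q.primeFactors, (1 + (p : ℝ)) ≤ (q : ℝ) ^ 2 := by
  have ht : 0 < (q.totient : ℝ) := by
    exact_mod_cast Nat.totient_pos.2 hq0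
  rw [one_div, inv_mul_le_iff₀ ht, selb_totient q hq]
  have h3 : (q : ℝ) = ∏ p ∈ q.primeFactors, (p : ℝ) := by
    have h4 : (q : ℝ) = ((∏ p ∈ q.primeFactors, p : ℕ) : ℝ) :=
      congrArg _ (Nat.prod_primeFactors_of_squarefree hq).symm
    exact h4.trans (Nat.cast_prod _ _)
  have h5 : (∏ p ∈ q.primeFactors, ((p : ℝ) - 1)) * (q : ℝ) ^ 2
      = ∏ p ∈ q.primeFactors, (((p : ℝ) - 1) * (p : ℝ) ^ 2) := by
    rw [Finset.prod_mul_distrib, Finset.prod_pow, ← h3]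
  rw [h5]
  refine Finset.prod_le_prod (fun p _ => by positivity) fun p hp => ?_
  have hp2 : (2 : ℝ) ≤ (p : ℝ) := by
    exact_mod_cast (Nat.prime_of_mem_primeFactors hp).two_le
  nlinarith [mul_nonneg (by linarith : (0 : ℝ) ≤ (p : ℝ) - 2) (sq_nonneg (p : ℝ))]

theorem selb_dvd {R p : ℕ} (hp : p.Prime) (h : p ≤ R) : p ∣ primorial R := by
  unfold primorial
  exact Finset.dvd_prod_of_mem _ (by simp [hp]; omega)

theorem selb_term (R : ℕ) (k : ℤ) (q : ℕ) (hq : q ∈ sqf R) :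
    Rep (primorial R) ((q : ℝ) ^ 2) (fun n => (1 / (q.totient : ℝ)) *
      ∏ p ∈ q.primeFactors, (1 - (p : ℝ) * ind p (n - k))) := by
  unfold sqf at hq
  rw [Finset.mem_filter, Finset.mem_Icc] at hq
  have hΛ : 0 < primorial R := primorial_pos R
  have h1 : Rep (primorial R) (∏ p ∈ q.primeFactors, (|(1 : ℝ)| + |(-(p : ℝ))| * 1))
      (fun n => ∏ p ∈ q.primeFactors, ((1 : ℝ) + (-(p : ℝ)) * ind p (n - k))) := by
    refine rep_prod hΛ _ _ (fun (p : ℕ) (n : ℤ) => (1 : ℝ) + (-(p : ℝ)) * ind p (n - k)) fun p hp => ?_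
    have hpp := Nat.prime_of_mem_primeFactors hp
    have hle : p ≤ R := (Nat.le_of_dvd (by omega) (Nat.dvd_of_mem_primeFactors hp)).trans hq.1.2
    exact rep_add (rep_const hΛ 1) (rep_smul _ (rep_ind hpp.pos (selb_dvd hpp hle) k))
  have h2 := rep_smul (1 / (q.totient : ℝ)) h1
  have h3 : |1 / (q.totient : ℝ)| * ∏ p ∈ q.primeFactors, (|(1 : ℝ)| + |(-(p : ℝ))| * 1)
      ≤ (q : ℝ) ^ 2 := by
    have e1 : |1 / (q.totient : ℝ)| = 1 / (q.totient : ℝ) := abs_of_nonneg (by positivity)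
    have e2 : ∏ p ∈ q.primeFactors, (|(1 : ℝ)| + |(-(p : ℝ))| * 1)
        = ∏ p ∈ q.primeFactors, (1 + (p : ℝ)) := by
      refine Finset.prod_congr rfl fun p _ => ?_
      rw [abs_one, abs_neg, abs_of_nonneg (Nat.cast_nonneg p), mul_one]
    rw [e1, e2]
    exact selb_weight q hq.2 (by omega)
  have h4 := rep_mono h2 h3
  have h5 : (fun n => (1 / (q.totient : ℝ)) *
      ∏ p ∈ q.primeFactors, (1 - (p : ℝ) * ind p (n - k)))
      = (fun n => (1 / (q.totient : ℝ)) *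
        ∏ p ∈ q.primeFactors, ((1 : ℝ) + (-(p : ℝ)) * ind p (n - k))) := by
    funext n
    congr 1
    refine Finset.prod_congr rfl fun p _ => ?_
    ring
  rw [h5]
  exact h4

/-- `∏ (1 + p) / (p - 1) ≤ 3 ^ ω(q) ≤ q ^ 2` -/
theorem AA_rep (R : ℕ) (k : ℤ) : Rep (primorial R) ((R : ℝ) ^ 3) (fun n => AA R (n - k)) := by
  have h1 := rep_sum (sqf R) (fun q => (q : ℝ) ^ 2) (fun q n => (1 / (q.totient : ℝ)) *
      ∏ p ∈ q.primeFactors, (1 - (p : ℝ) * ind p (n - k))) (fun q hq => selb_term R k q hq)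
  refine rep_mono h1 ?_
  have h2 : ∑ q ∈ sqf R, (q : ℝ) ^ 2 ≤ ∑ _q ∈ sqf R, (R : ℝ) ^ 2 := by
    refine Finset.sum_le_sum fun q hq => ?_
    unfold sqf at hq
    rw [Finset.mem_filter, Finset.mem_Icc] at hq
    have h3 : (q : ℝ) ≤ (R : ℝ) := by exact_mod_cast hq.1.2
    exact pow_le_pow_left₀ (Nat.cast_nonneg q) h3 2
  refine h2.trans ?_
  rw [Finset.sum_const, nsmul_eq_mul]
  have h4 : ((sqf R).card : ℝ) ≤ (R : ℝ) := by
    have h5 : (sqf R).card ≤ R := by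
      unfold sqf
      calc ((Icc 1 R).filter Squarefree).card ≤ (Icc 1 R).card := Finset.card_filter_le _ _
        _ = R := by rw [Nat.card_Icc]; omega
    exact_mod_cast h5
  calc ((sqf R).card : ℝ) * (R : ℝ) ^ 2 ≤ (R : ℝ) * (R : ℝ) ^ 2 :=
        mul_le_mul_of_nonneg_right h4 (by positivity)
    _ = (R : ℝ) ^ 3 := by ring

theorem sS_rep (R : ℕ) (hR : 1 ≤ R) (k : ℤ) :
    Rep (primorial R) ((R : ℝ) ^ 6) (fun n => sS R (n - k)) := by
  have h1 := rep_smul (1 / gS R ^ 2) (rep_mul (AA_rep R k) (AA_rep R k))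
  have hg := one_le_gS R hR
  have h2 : |1 / gS R ^ 2| * ((R : ℝ) ^ 3 * (R : ℝ) ^ 3) ≤ (R : ℝ) ^ 6 := by
    have h3 : |1 / gS R ^ 2| ≤ 1 := by
      rw [abs_of_nonneg (by positivity), div_le_one (by positivity)]
      exact one_le_pow₀ hg
    calc |1 / gS R ^ 2| * ((R : ℝ) ^ 3 * (R : ℝ) ^ 3) ≤ 1 * ((R : ℝ) ^ 3 * (R : ℝ) ^ 3) :=
          mul_le_mul_of_nonneg_right h3 (by positivity)
      _ = (R : ℝ) ^ 6 := by ring
  have h4 := rep_mono h1 h2
  have h5 : (fun n => sS R (n - k))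
      = (fun n => 1 / gS R ^ 2 * (AA R (n - k) * AA R (n - k))) := by
    funext n
    unfold sS
    ring
  rw [h5]
  exact h4

end RD
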