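import Pool.Agent.LibRD13.Def
import Pool.Agent.LibRD13.Repa
import Pool.Agent.LibRD13.Sela
import Pool.Agent.LibRD13.Selb
import Pool.Agent.LibRD13.Blk
import Pool.Agent.LibRD13.Dom
import Pool.Agent.LibRD13.Crt
import Pool.Agent.LibRD13.Gam

/-! MP_699cde_nt: row MEAN. -/

set_option autoImplicit false
set_option linter.unusedSectionVars false

namespace RD

open Finset


section col

variable {ι : Type} [Fintype ι] [DecidableEq ι]

/-- the product over the blocks as a function of the columns -/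
noncomputable def MEAN_Phi (R u l m t : ℕ) (V : ℝ) (T : Finset (Fin m)) (n : ℤ)
    (B : Fin m × Fin l → ι → Bool) : ℝ :=
  ∏ q ∈ T, (∑ x : Fin l, sS R (n - ((u + (q : ℕ) * l + (x : ℕ) : ℕ) : ℤ)) *
    (WC t (B (q, x)) - V)) ^ 2

theorem MEAN_Phi_nonneg (R u l m t : ℕ) (V : ℝ) (T : Finset (Fin m)) (n : ℤ)
    (B : Fin m × Fin l → ι → Bool) : 0 ≤ MEAN_Phi R u l m t V T n B :=
  Finset.prod_nonneg fun _ _ => sq_nonneg _

theorem MEAN_Phi_per (R : ℕ) (hR : 1 ≤ R) (u l m t : ℕ) (V : ℝ) (T : Finset (Fin m)) (n : ℤ)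
    (B : Fin m × Fin l → ι → Bool) :
    MEAN_Phi R u l m t V T (n + (primorial R : ℕ)) B = MEAN_Phi R u l m t V T n B := by
  unfold MEAN_Phi
  refine Finset.prod_congr rfl fun q _ => ?_
  congr 1
  refine Finset.sum_congr rfl fun x _ => ?_
  congr 1
  exact rep_per (sS_rep R hR ((u + (q : ℕ) * l + (x : ℕ) : ℕ) : ℤ)) n

theorem MEAN_Phi_eq (R : ℕ) (pr : ι → ℕ) (u l m t : ℕ) (V : ℝ) (T : Finset (Fin m)) (n : ℤ) :
    ∏ q ∈ T, GB R pr t V (u + q * l) l n ^ 2 =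
      MEAN_Phi R u l m t V T n
        (fun k i => decide ((pr i : ℤ) ∣ n - ((u + (k.1 : ℕ) * l + (k.2 : ℕ) : ℕ) : ℤ))) := by
  unfold MEAN_Phi GB
  refine Finset.prod_congr rfl fun q _ => ?_
  congr 1
  rw [← Fin.sum_univ_eq_sum_range
    (fun y => sS R (n - ((u + (q : ℕ) * l + y : ℕ) : ℤ)) *
      (WP pr t (n - ((u + (q : ℕ) * l + y : ℕ) : ℤ)) - V)) l]
  rfl

theorem MEAN_pos (u l m : ℕ) (P : ℕ) (hl : m * l < P) (k k' : Fin m × Fin l) (hk : k ≠ k') :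
    ¬ (P : ℤ) ∣ ((u + (k.1 : ℕ) * l + (k.2 : ℕ) : ℕ) : ℤ) -
      ((u + (k'.1 : ℕ) * l + (k'.2 : ℕ) : ℕ) : ℤ) := by
  obtain ⟨q, x⟩ := k
  obtain ⟨q', x'⟩ := k'
  intro hd
  have h1 : ∀ (a : Fin m) (b : Fin l), (a : ℕ) * l + (b : ℕ) < m * l := by
    intro a b
    calc (a : ℕ) * l + (b : ℕ) < (a : ℕ) * l + l := by have := b.2; omega
      _ = ((a : ℕ) + 1) * l := by ring
      _ ≤ m * l := Nat.mul_le_mul_right l a.2
  have hx := h1 q x
  have hx' := h1 q' x'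
  simp only at hd
  have h0 : ((u + (q : ℕ) * l + (x : ℕ) : ℕ) : ℤ) - ((u + (q' : ℕ) * l + (x' : ℕ) : ℕ) : ℤ) = 0 := by
    apply Int.eq_zero_of_abs_lt_dvd hd
    rw [abs_lt]
    push_cast
    constructor <;> · zify at hx hx' hl; linarith [Int.natCast_nonneg ((q : ℕ) * l), Int.natCast_nonneg ((q' : ℕ) * l), Int.natCast_nonneg (x : ℕ), Int.natCast_nonneg (x' : ℕ), mul_nonneg (Int.natCast_nonneg (q : ℕ)) (Int.natCast_nonneg l), mul_nonneg (Int.natCast_nonneg (q' : ℕ)) (Int.natCast_nonneg l)]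
  have h2 : (x : ℕ) + l * (q : ℕ) = (x' : ℕ) + l * (q' : ℕ) := by
    have h3 : (u + (q : ℕ) * l + (x : ℕ) : ℕ) = (u + (q' : ℕ) * l + (x' : ℕ) : ℕ) := by
      exact_mod_cast sub_eq_zero.1 h0
    rw [mul_comm l, mul_comm l]
    omega
  have hlpos : 0 < l := lt_of_le_of_lt (Nat.zero_le _) x.2
  have hxx : (x : ℕ) = (x' : ℕ) := by
    have h4 := congrArg (fun z => z % l) h2
    simp only [Nat.add_mul_mod_self_left, Nat.mod_eq_of_lt x.2, Nat.mod_eq_of_lt x'.2] at h4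
    exact h4
  have hqq : (q : ℕ) = (q' : ℕ) := by
    rw [hxx] at h2
    exact Nat.eq_of_mul_eq_mul_left hlpos (by omega)
  exact hk (by rw [Prod.mk.injEq]; exact ⟨Fin.ext hqq, Fin.ext hxx⟩)

theorem MEAN_coprime (R : ℕ) (p : ℕ) (hp : p.Prime) (hR : R < p) :
    Nat.Coprime (primorial R) p := by
  unfold primorial
  refine Nat.Coprime.prod_left fun q hq => ?_
  rw [Finset.mem_filter, Finset.mem_range] at hq
  exact (Nat.coprime_primes hq.2 hp).2 (by omega)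

theorem MEAN_block (R : ℕ) (hR : 1 ≤ R) (β : ι → ℝ) (hβ : ∀ i, 0 ≤ β i ∧ β i ≤ 1)
    (u l m t : ℕ) (T : Finset (Fin m)) (n : ℤ) :
    ∑ B : Fin m × Fin l → ι → Bool, (∏ k, cw β (B k)) *
        MEAN_Phi R u l m t (EC β (WC t)) T n B
      ≤ (l * ((R : ℝ) ^ 2) ^ 2 * EC β (fun c => WC t c ^ 2)) ^ #T := by
  have hb := blk β hβ t (Q := Fin m) (X := Fin l)
    (fun q x => sS R (n - ((u + (q : ℕ) * l + (x : ℕ) : ℕ) : ℤ))) ((R : ℝ) ^ 2)
    (fun q x => by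
      rw [abs_of_nonneg (sS_nonneg R _)]
      exact sS_le R hR _) T
  rw [Fintype.card_fin] at hb
  refine le_trans (le_of_eq ?_) hb
  refine Fintype.sum_equiv (Equiv.curry (Fin m) (Fin l) (ι → Bool)) _ _ fun B => ?_
  rw [Fintype.prod_prod_type]
  rfl

theorem mean_bound (R : ℕ) (hR : 1 ≤ R) (pr : ι → ℕ) (hp : ∀ i, (pr i).Prime)
    (hinj : Function.Injective pr) (hRp : ∀ i, R < pr i) (u l m t : ℕ)
    (hl : ∀ i, m * l < pr i) (T : Finset (Fin m)) :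
    ∑ n ∈ range (primorial R * ∏ i, pr i),
        ∏ q ∈ T, GB R pr t (EC (bet pr (m * l)) (WC t)) (u + q * l) l n ^ 2
      ≤ ((primorial R * ∏ i, pr i : ℕ) : ℝ) * gam pr (m * l) *
        (l * ((R : ℝ) ^ 2) ^ 2 * EC (bet pr (m * l)) (fun c => WC t c ^ 2)) ^ #T := by
  have hcard : Fintype.card (Fin m × Fin l) = m * l := by
    rw [Fintype.card_prod, Fintype.card_fin, Fintype.card_fin]
  have hgam : 0 ≤ gam pr (m * l) := Finset.prod_nonneg fun _ _ => (Real.exp_pos _).le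
  have h1 := crt (K := Fin m × Fin l) (primorial R) (primorial_pos R) pr
    (fun i => (hp i).pos)
    (fun i j hij => (Nat.coprime_primes (hp i) (hp j)).2 (fun h => hij (hinj h)))
    (fun i => MEAN_coprime R (pr i) (hp i) (hRp i))
    (fun k => ((u + (k.1 : ℕ) * l + (k.2 : ℕ) : ℕ) : ℤ))
    (MEAN_Phi R u l m t (EC (bet pr (m * l)) (WC t)) T)
    (fun n B => MEAN_Phi_nonneg R u l m t _ T n B)
    (fun n B => MEAN_Phi_per R hR u l m t _ T n B)
  have h0 : ∑ n ∈ range (primorial R * ∏ i, pr i),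
        ∏ q ∈ T, GB R pr t (EC (bet pr (m * l)) (WC t)) (u + q * l) l n ^ 2 =
      ∑ n ∈ range (primorial R * ∏ i, pr i),
        MEAN_Phi R u l m t (EC (bet pr (m * l)) (WC t)) T n
        (fun k i => decide ((pr i : ℤ) ∣ (n : ℤ) -
          ((u + (k.1 : ℕ) * l + (k.2 : ℕ) : ℕ) : ℤ))) :=
    Finset.sum_congr rfl fun n _ => MEAN_Phi_eq R pr u l m t _ T n
  rw [h0]
  refine le_trans h1 ?_
  have h2 : ∀ n ∈ range (primorial R),
      ∑ a ∈ Fintype.piFinset (fun i => range (pr i)),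
        MEAN_Phi R u l m t (EC (bet pr (m * l)) (WC t)) T n
        (fun k i => decide ((pr i : ℤ) ∣ (a i : ℤ) -
          ((u + (k.1 : ℕ) * l + (k.2 : ℕ) : ℕ) : ℤ))) ≤
      (∏ i, (pr i : ℝ)) * gam pr (m * l) *
        (l * ((R : ℝ) ^ 2) ^ 2 * EC (bet pr (m * l)) (fun c => WC t c ^ 2)) ^ #T := by
    intro n _
    have h3 := dom (K := Fin m × Fin l) pr
      (fun k => ((u + (k.1 : ℕ) * l + (k.2 : ℕ) : ℕ) : ℤ))
      (fun i => by rw [hcard]; exact hl i)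
      (fun i k k' hk => MEAN_pos u l m (pr i) (hl i) k k' hk)
      (MEAN_Phi R u l m t (EC (bet pr (m * l)) (WC t)) T n)
      (fun B => MEAN_Phi_nonneg R u l m t _ T n B)
    rw [hcard] at h3
    refine le_trans h3 ?_
    exact mul_le_mul_of_nonneg_left
      (MEAN_block R hR (bet pr (m * l)) (bet_mem pr (m * l) hl) u l m t T n)
      (mul_nonneg (Finset.prod_nonneg fun _ _ => Nat.cast_nonneg _) hgam)
  refine le_trans (Finset.sum_le_sum h2) (le_of_eq ?_)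
  rw [Finset.sum_const, Finset.card_range, nsmul_eq_mul]
  push_cast
  ring

end col

end RD
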