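import Pool.Agent.LibRD13.Def
import Pool.Agent.LibMaier.Mertens2

/-! MP_699cde_nt, row MER: choice of the sieving primes (Mertens). -/

set_option autoImplicit false
set_option linter.unusedSectionVars false

namespace RD

open Finset

/-- greedy choice -/
theorem MER_greedy (g : ℕ → ℝ) (hg : ∀ n, 0 < n → g n ≤ 1) (H z : ℕ) (κ : ℝ)
    (hκ : 0 < κ) (h : κ ≤ ∑ n ∈ Ioc H z, g n) :
    ∃ M, M ≤ z ∧ κ ≤ ∑ n ∈ Ioc H M, g n ∧ ∑ n ∈ Ioc H M, g n ≤ κ + 1 := by
  classical
  have hex : ∃ M, κ ≤ ∑ n ∈ Ioc H M, g n := ⟨z, h⟩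
  refine ⟨Nat.find hex, Nat.find_min' hex h, Nat.find_spec hex, ?_⟩
  set M := Nat.find hex with hM
  have hs : κ ≤ ∑ n ∈ Ioc H M, g n := Nat.find_spec hex
  have hHM : H < M := by
    by_contra hc
    push Not at hc
    rw [Ioc_eq_empty (by omega), sum_empty] at hs
    linarith
  obtain ⟨m, hm⟩ : ∃ m, M = m + 1 := ⟨M - 1, by omega⟩
  have hlt : ¬ κ ≤ ∑ n ∈ Ioc H m, g n := Nat.find_min hex (by omega)
  push Not at hlt
  rw [hm, Finset.sum_Ioc_succ_top (by omega : H ≤ m)]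
  have h1 := hg (m + 1) (by omega)
  linarith

theorem select : ∃ C : ℝ, 1 ≤ C ∧ ∀ (H z : ℕ) (κ : ℝ), 2 ≤ H → 1 ≤ κ →
    C * Real.log H * Real.exp κ ≤ Real.log z →
    ∃ P : Finset ℕ, (∀ p ∈ P, p.Prime ∧ H < p ∧ p ≤ z) ∧ κ ≤ ∑ p ∈ P, (1 : ℝ) / p ∧
      ∑ p ∈ P, (1 : ℝ) / p ≤ κ + 1 := by
  classical
  obtain ⟨K, hK0, hK⟩ := Pool.Agent.LibMaier.mertens_first
  have hl2 : 0 < Real.log 2 := Real.log_pos (by norm_num)
  have hE0 : 0 ≤ 2 * K / Real.log 2 := by positivity
  refine ⟨Real.exp (2 * K / Real.log 2), Real.one_le_exp hE0, ?_⟩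
  intro H z κ hH hκ hz
  have hH2 : (2 : ℝ) ≤ H := by exact_mod_cast hH
  have hlH : 0 < Real.log H := Real.log_pos (by linarith)
  have hlH2 : Real.log 2 ≤ Real.log H := Real.log_le_log (by norm_num) hH2
  have hC1 : 1 ≤ Real.exp (2 * K / Real.log 2) := Real.one_le_exp hE0
  have hk1 : 1 ≤ Real.exp κ := Real.one_le_exp (by linarith)
  have hge : Real.log H ≤ Real.log z := by
    refine le_trans ?_ hz
    have h1 : Real.log H ≤ Real.exp (2 * K / Real.log 2) * Real.log H := by nlinarith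
    nlinarith
  have hz0 : 0 < z := by
    rcases Nat.eq_zero_or_pos z with h | h
    · subst h
      simp only [Nat.cast_zero, Real.log_zero] at hge
      linarith
    · exact h
  have hz0' : (0 : ℝ) < z := by exact_mod_cast hz0
  have hHz : (H : ℝ) ≤ z := (Real.log_le_log_iff (by linarith) hz0').1 hge
  have hHzN : H ≤ z := by exact_mod_cast hHz
  have hsub := Pool.Agent.LibMaier.DR_sub hK (a := (H : ℝ)) (b := (z : ℝ)) (by linarith) hHz
  unfold Pool.Agent.LibMaier.DR at hsub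
  rw [Nat.floor_natCast, Nat.floor_natCast] at hsub
  have hRN := Pool.Agent.LibMaier.RN_sub hHzN
  have hlog : Real.log (Real.exp (2 * K / Real.log 2) * Real.log H * Real.exp κ)
      ≤ Real.log (Real.log z) := Real.log_le_log (by positivity) hz
  rw [Real.log_mul (by positivity) (by positivity), Real.log_mul (by positivity) (by positivity),
    Real.log_exp, Real.log_exp] at hlog
  have hdiv : 2 * K / Real.log H ≤ 2 * K / Real.log 2 :=
    div_le_div_of_nonneg_left (by positivity) hl2 hlH2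
  have habs := (abs_le.1 hsub).1
  have hsum : κ ≤ ∑ n ∈ Ioc H z, (if n.Prime then 1 / (n : ℝ) else 0) := by
    rw [← hRN]
    linarith
  obtain ⟨M, hMz, hM1, hM2⟩ := MER_greedy (fun n => if n.Prime then 1 / (n : ℝ) else 0)
    (by
      intro n hn
      have hn1 : (1 : ℝ) ≤ n := by exact_mod_cast hn
      split_ifs
      · exact (div_le_one (by linarith)).2 hn1
      · norm_num) H z κ (by linarith) hsum
  refine ⟨(Ioc H M).filter Nat.Prime, ?_, ?_, ?_⟩
  · intro p hp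
    rw [mem_filter, mem_Ioc] at hp
    exact ⟨hp.2, hp.1.1, hp.1.2.trans hMz⟩
  · rw [sum_filter]
    exact hM1
  · rw [sum_filter]
    exact hM2

end RD
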