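import Pool.Agent.LibRD13.Def

/-! row REPC of MP_699cde_nt -/

set_option autoImplicit false
set_option linter.unusedSectionVars false

namespace RD

open Finset

theorem REPC_count (u b : ℤ) (q N : ℕ) (hq : 0 < q) :
    ∑ y ∈ range N, (if (q : ℤ) ∣ u + y - b then (1 : ℝ) else 0) =
      ((⌈(((u + N : ℤ) : ℚ) - b) / (q : ℚ)⌉ - ⌈((u : ℚ) - b) / (q : ℚ)⌉ : ℤ) : ℝ) := by
  have hq' : (0 : ℤ) < q := by exact_mod_cast hq
  have hq'' : (0 : ℚ) < q := by exact_mod_cast hq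
  rw [Finset.sum_boole]
  have h1 := Int.Ico_filter_modEq_card u (u + N) hq' b
  have h2 : #((range N).filter fun y : ℕ => (q : ℤ) ∣ u + (y : ℤ) - b) =
      #{x ∈ Ico u (u + N) | x ≡ b [ZMOD q]} := by
    refine Finset.card_bij (fun y _ => u + (y : ℤ)) ?_ ?_ ?_
    · intro y hy
      rw [mem_filter, mem_range] at hy
      rw [mem_filter, mem_Ico]
      refine ⟨⟨by omega, by omega⟩, ?_⟩
      rw [Int.modEq_iff_dvd, ← Int.dvd_neg]
      have h3 : -(b - (u + (y : ℤ))) = u + y - b := by ring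
      rw [h3]
      exact hy.2
    · intro y _ y' _ h
      have h3 : (y : ℤ) = y' := by linarith
      exact_mod_cast h3
    · intro x hx
      rw [mem_filter, mem_Ico] at hx
      refine ⟨(x - u).toNat, ?_, ?_⟩
      · rw [mem_filter, mem_range]
        have h4 : ((x - u).toNat : ℤ) = x - u := Int.toNat_of_nonneg (by omega)
        refine ⟨by omega, ?_⟩
        rw [h4]
        have h5 := Int.modEq_iff_dvd.1 hx.2
        rw [← Int.dvd_neg] at h5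
        have h3 : -(b - x) = u + (x - u) - b := by ring
        rwa [h3] at h5
      · have h4 : ((x - u).toNat : ℤ) = x - u := Int.toNat_of_nonneg (by omega)
        change u + ((x - u).toNat : ℤ) = x
        rw [h4]
        ring
  have h6 : ⌈((u : ℚ) - b) / (q : ℚ)⌉ ≤ ⌈(((u + N : ℤ) : ℚ) - b) / (q : ℚ)⌉ := by
    apply Int.ceil_le_ceil
    apply div_le_div_of_nonneg_right _ hq''.le
    push_cast
    have : (0 : ℚ) ≤ N := Nat.cast_nonneg N
    linarith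
  rw [max_eq_left (by
    have h7 : ((q : ℤ) : ℚ) = (q : ℚ) := by norm_cast
    rw [h7]
    linarith)] at h1
  rw [h2]
  have h8 : ((#{x ∈ Ico u (u + N) | x ≡ b [ZMOD q]} : ℤ) : ℝ) =
      ((⌈(((u + N : ℤ) : ℚ) - b) / (q : ℚ)⌉ - ⌈((u : ℚ) - b) / (q : ℚ)⌉ : ℤ) : ℝ) := by
    rw [h1]
    norm_cast
  rw [← h8]
  norm_cast

theorem REPC_abs (u b : ℤ) (q N : ℕ) (hq : 0 < q) :
    |∑ y ∈ range N, (if (q : ℤ) ∣ u + y - b then (1 : ℝ) else 0) - (N : ℝ) / q| ≤ 1 := by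
  have hq'' : (0 : ℚ) < q := by exact_mod_cast hq
  rw [REPC_count u b q N hq]
  have h1 := Int.le_ceil ((((u + N : ℤ) : ℚ) - b) / (q : ℚ))
  have h2 := Int.ceil_lt_add_one ((((u + N : ℤ) : ℚ) - b) / (q : ℚ))
  have h3 := Int.le_ceil (((u : ℚ) - b) / (q : ℚ))
  have h4 := Int.ceil_lt_add_one (((u : ℚ) - b) / (q : ℚ))
  have h5 : (((u + N : ℤ) : ℚ) - b) / (q : ℚ) = ((u : ℚ) - b) / q + (N : ℚ) / q := by
    push_cast
    ring
  set A := ⌈(((u + N : ℤ) : ℚ) - b) / (q : ℚ)⌉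
  set B := ⌈((u : ℚ) - b) / (q : ℚ)⌉
  have h6 : |((A - B : ℤ) : ℚ) - (N : ℚ) / q| ≤ 1 := by
    push_cast
    rw [abs_le]
    constructor <;> linarith
  have h7 : |(((A - B : ℤ) : ℚ) : ℝ) - (((N : ℚ) / q : ℚ) : ℝ)| ≤ ((1 : ℚ) : ℝ) := by
    rw [← Rat.cast_sub, ← Rat.cast_abs]
    exact_mod_cast h6
  push_cast at h7 ⊢
  exact h7

theorem REPC_full (b : ℤ) (q Λ : ℕ) (hq : 0 < q) (hd : q ∣ Λ) :
    ∑ y ∈ range Λ, (if (q : ℤ) ∣ (y : ℤ) - b then (1 : ℝ) else 0) = (Λ : ℝ) / q := by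
  obtain ⟨m, rfl⟩ := hd
  have hq'' : (q : ℚ) ≠ 0 := by exact_mod_cast hq.ne'
  have hq' : (q : ℝ) ≠ 0 := by exact_mod_cast hq.ne'
  have h1 := REPC_count 0 b q (q * m) hq
  have h2 : ∀ y : ℕ, (0 : ℤ) + y - b = y - b := fun y => by ring
  simp only [h2] at h1
  rw [h1]
  have h3 : (((0 + (q * m : ℕ) : ℤ) : ℚ) - b) / (q : ℚ) = (((0 : ℤ) : ℚ) - b) / q + (m : ℤ) := by
    push_cast
    field_simp
    ring
  rw [h3, Int.ceil_add_intCast]
  push_cast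
  field_simp
  ring

/-- the number of elements of an interval of length `N` in a residue class mod `q` is
`N / q + O(1)`, exactly `Λ / q` for a full period -/
theorem rep_transfer {Λ : ℕ} (hΛ : 0 < Λ) {Γ : ℝ} {F : ℤ → ℝ} (h : Rep Λ Γ F) (u : ℤ) (N : ℕ) :
    |∑ y ∈ range N, F (u + y) - (N / Λ) * ∑ y ∈ range Λ, F y| ≤ Γ := by
  obtain ⟨ι, _, c, q, b, hq, hF, hc⟩ := h
  have hΛ' : (Λ : ℝ) ≠ 0 := by exact_mod_cast hΛ.ne'
  have h1 : ∑ y ∈ range N, F (u + y) =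
      ∑ i, c i * ∑ y ∈ range N, (if (q i : ℤ) ∣ u + y - b i then (1 : ℝ) else 0) := by
    simp only [hF, mul_sum]
    rw [sum_comm]
  have h2 : ∑ y ∈ range Λ, F y =
      ∑ i, c i * ∑ y ∈ range Λ, (if (q i : ℤ) ∣ (y : ℤ) - b i then (1 : ℝ) else 0) := by
    simp only [hF, mul_sum]
    rw [sum_comm]
  rw [h1, h2, mul_sum, ← sum_sub_distrib]
  refine (abs_sum_le_sum_abs _ _).trans (le_trans (sum_le_sum fun i _ => ?_) hc)
  rw [REPC_full (b i) (q i) Λ (hq i).1 (hq i).2]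
  have hqi : (q i : ℝ) ≠ 0 := by exact_mod_cast (hq i).1.ne'
  have h3 : c i * ∑ y ∈ range N, (if (q i : ℤ) ∣ u + y - b i then (1 : ℝ) else 0) -
      (N : ℝ) / Λ * (c i * ((Λ : ℝ) / q i)) =
      c i * (∑ y ∈ range N, (if (q i : ℤ) ∣ u + y - b i then (1 : ℝ) else 0) - (N : ℝ) / q i) := by
    field_simp
  rw [h3, abs_mul]
  exact mul_le_of_le_one_right (abs_nonneg _) (REPC_abs u (b i) (q i) N (hq i).1)

end RD
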