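import Pool.Agent.LibRD13.Def
import Pool.Agent.LibRD13.Repc
import Pool.Agent.LibRD13.Repb
import Pool.Agent.LibRD13.Sela
import Pool.Agent.LibRD13.Selb

/-! MP_699cde_nt, row SELC. -/

set_option autoImplicit false
set_option linter.unusedSectionVars false

namespace RD

open Finset


/-- product of indicators of divisibility by distinct primes -/
theorem SELC_prod_ind (S : Finset ℕ) (hS : ∀ p ∈ S, p.Prime) (m : ℤ) :
    ∏ p ∈ S, ind p m = ind (∏ p ∈ S, p) m := by
  unfold ind
  have key : ((∏ p ∈ S, p : ℕ) : ℤ) ∣ m ↔ ∀ p ∈ S, (p : ℤ) ∣ m := by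
    constructor
    · intro h p hp
      exact (Int.natCast_dvd_natCast.mpr (Finset.dvd_prod_of_mem _ hp)).trans h
    · intro h
      rw [Nat.cast_prod]
      refine Finset.prod_dvd_of_coprime ?_ h
      intro p hp q hq hpq
      have : Nat.Coprime p q := (Nat.coprime_primes (hS p hp) (hS q hq)).mpr hpq
      exact Nat.isCoprime_iff_coprime.mpr this
  by_cases h : ∀ p ∈ S, (p : ℤ) ∣ m
  · rw [if_pos (key.mpr h)]
    exact Finset.prod_eq_one fun p hp => if_pos (h p hp)
  · rw [if_neg (fun h' => h (key.mp h'))]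
    push Not at h
    obtain ⟨p, hp, hpm⟩ := h
    exact Finset.prod_eq_zero hp (if_neg hpm)

/-- number of multiples of `d` in a full period -/
theorem SELC_sum_ind {Λ : ℕ} (hΛ : 0 < Λ) (d : ℕ) (hd : d ∣ Λ) :
    ∑ y ∈ range Λ, ind d y = (Λ : ℝ) / d := by
  have hd0 : 0 < d := Nat.pos_of_dvd_of_pos hd hΛ
  obtain ⟨e, rfl⟩ := hd
  have h1 : ∑ y ∈ range (d * e), ind d y = (#{y ∈ range (d * e) | d ∣ y} : ℝ) := by
    rw [Finset.card_filter]
    push_cast
    refine Finset.sum_congr rfl fun y _ => ?_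
    unfold ind
    by_cases h : d ∣ y
    · rw [if_pos h, if_pos (Int.natCast_dvd_natCast.mpr h)]
    · rw [if_neg h, if_neg (fun h' => h (Int.natCast_dvd_natCast.mp h'))]
  have h2 : #{y ∈ range (d * e) | d ∣ y} = e := by
    have h3 : {y ∈ range (d * e) | d ∣ y} = (range e).image (fun k => d * k) := by
      ext y
      simp only [mem_filter, mem_range, mem_image]
      constructor
      · rintro ⟨hy, k, rfl⟩
        exact ⟨k, Nat.lt_of_mul_lt_mul_left hy, rfl⟩
      · rintro ⟨k, hk, rfl⟩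
        exact ⟨Nat.mul_lt_mul_of_pos_left hk hd0, dvd_mul_right d k⟩
    rw [h3, Finset.card_image_of_injective _ (fun a b h => Nat.eq_of_mul_eq_mul_left hd0 h),
      card_range]
  rw [h1, h2]
  have : (d : ℝ) ≠ 0 := by positivity
  push_cast
  field_simp

/-- the mean of `∏_{p ∈ P} (a p + b p * ind p n)` over a full period is `∏ (a p + b p / p)` -/
theorem prod_mean {Λ : ℕ} (hΛ : 0 < Λ) (P : Finset ℕ) (hP : ∀ p ∈ P, p.Prime ∧ p ∣ Λ)
    (a b : ℕ → ℝ) :
    ∑ y ∈ range Λ, ∏ p ∈ P, (a p + b p * ind p y) = Λ * ∏ p ∈ P, (a p + b p / p) := by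
  have h1 : ∀ y ∈ range Λ, ∏ p ∈ P, (a p + b p * ind p y) =
      ∑ S ∈ P.powerset, (∏ p ∈ S, b p) * (∏ p ∈ P \ S, a p) * ind (∏ p ∈ S, p) y := by
    intro y _
    have : ∀ p ∈ P, a p + b p * ind p y = b p * ind p y + a p := fun p _ => add_comm _ _
    rw [Finset.prod_congr rfl this, Finset.prod_add]
    refine Finset.sum_congr rfl fun S hS => ?_
    rw [Finset.prod_mul_distrib, SELC_prod_ind S
      (fun p hp => (hP p (Finset.mem_powerset.mp hS hp)).1)]
    ring
  rw [Finset.sum_congr rfl h1, Finset.sum_comm]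
  have h2 : ∏ p ∈ P, (a p + b p / p) =
      ∑ S ∈ P.powerset, (∏ p ∈ S, b p / p) * (∏ p ∈ P \ S, a p) := by
    have : ∀ p ∈ P, a p + b p / p = b p / p + a p := fun p _ => add_comm _ _
    rw [Finset.prod_congr rfl this, Finset.prod_add]
  rw [h2, Finset.mul_sum]
  refine Finset.sum_congr rfl fun S hS => ?_
  have hS' := Finset.mem_powerset.mp hS
  have hdvd : (∏ p ∈ S, p) ∣ Λ := by
    refine Finset.prod_dvd_of_isRelPrime ?_ (fun p hp => (hP p (hS' hp)).2)
    intro p hp q hq hpq
    exact Nat.coprime_iff_isRelPrime.mp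
      ((Nat.coprime_primes (hP p (hS' hp)).1 (hP q (hS' hq)).1).mpr hpq)
  rw [← Finset.mul_sum, SELC_sum_ind hΛ _ hdvd, Finset.prod_div_distrib]
  push_cast
  ring

theorem SELC_mem_sqf {R q : ℕ} (h : q ∈ sqf R) : 0 < q ∧ q ≤ R ∧ Squarefree q := by
  unfold sqf at h
  rw [mem_filter, mem_Icc] at h
  exact ⟨h.1.1, h.1.2, h.2⟩

/-- orthogonality of two characters -/
theorem SELC_orth (R : ℕ) (q r : ℕ) (hq : q ∈ sqf R) (hr : r ∈ sqf R) :
    ∑ y ∈ range (primorial R), (∏ p ∈ q.primeFactors, (1 - (p : ℝ) * ind p y)) *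
      (∏ p ∈ r.primeFactors, (1 - (p : ℝ) * ind p y)) =
    if q = r then (primorial R : ℝ) * q.totient else 0 := by
  obtain ⟨hq0, hqR, hqs⟩ := SELC_mem_sqf hq
  obtain ⟨hr0, hrR, hrs⟩ := SELC_mem_sqf hr
  have hdvd : ∀ s : ℕ, 0 < s → s ≤ R → ∀ p ∈ s.primeFactors, p.Prime ∧ p ∣ primorial R := by
    intro s hs hsR p hp
    have hpp := Nat.prime_of_mem_primeFactors hp
    refine ⟨hpp, ?_⟩
    exact hpp.dvd_primorial_iff.mpr ((Nat.le_of_dvd hs (Nat.dvd_of_mem_primeFactors hp)).trans hsR)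
  have hmerge : ∀ y ∈ range (primorial R),
      (∏ p ∈ q.primeFactors, (1 - (p : ℝ) * ind p y)) *
        (∏ p ∈ r.primeFactors, (1 - (p : ℝ) * ind p y)) =
      ∏ p ∈ q.primeFactors ∪ r.primeFactors, (1 +
        (if p ∈ q.primeFactors ∧ p ∈ r.primeFactors then ((p : ℝ) ^ 2 - 2 * p) else (-(p : ℝ))) *
          ind p y) := by
    intro y _
    have e1 : ∏ p ∈ q.primeFactors, (1 - (p : ℝ) * ind p y) =
        ∏ p ∈ q.primeFactors ∪ r.primeFactors,
          (if p ∈ q.primeFactors then (1 - (p : ℝ) * ind p y) else 1) := by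
      rw [Finset.prod_ite_mem, Finset.union_inter_cancel_left]
    have e2 : ∏ p ∈ r.primeFactors, (1 - (p : ℝ) * ind p y) =
        ∏ p ∈ q.primeFactors ∪ r.primeFactors,
          (if p ∈ r.primeFactors then (1 - (p : ℝ) * ind p y) else 1) := by
      rw [Finset.prod_ite_mem, Finset.union_inter_cancel_right]
    rw [e1, e2, ← Finset.prod_mul_distrib]
    refine Finset.prod_congr rfl fun p hp => ?_
    have hi : ind p y = 0 ∨ ind p y = 1 := by
      unfold ind
      by_cases h : ((p : ℕ) : ℤ) ∣ (y : ℤ)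
      · exact Or.inr (if_pos h)
      · exact Or.inl (if_neg h)
    by_cases h1 : p ∈ q.primeFactors
    · by_cases h2 : p ∈ r.primeFactors
      · rw [if_pos h1, if_pos h2, if_pos ⟨h1, h2⟩]
        rcases hi with hi | hi <;> rw [hi] <;> ring
      · rw [if_pos h1, if_neg h2, if_neg (fun h => h2 h.2)]
        ring
    · have h2 : p ∈ r.primeFactors := by
        rcases Finset.mem_union.mp hp with h | h
        · exact absurd h h1
        · exact h
      rw [if_neg h1, if_pos h2, if_neg (fun h => h1 h.1)]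
      ring
  rw [Finset.sum_congr rfl hmerge, prod_mean (primorial_pos R) _ (by
    intro p hp
    rcases Finset.mem_union.mp hp with h | h
    · exact hdvd q hq0 hqR p h
    · exact hdvd r hr0 hrR p h)]
  by_cases hqr : q = r
  · subst hqr
    rw [if_pos rfl, Finset.union_idempotent]
    congr 1
    have : q.totient = ∏ p ∈ q.primeFactors, (p - 1) := by
      rw [Nat.totient_eq_prod_factorization hq0.ne', Nat.prod_factorization_eq_prod_primeFactors]
      refine Finset.prod_congr rfl fun p hp => ?_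
      have h1 : q.factorization p = 1 := by
        have h2 := (Nat.squarefree_iff_factorization_le_one hq0.ne').mp hqs p
        have h3 : 0 < q.factorization p :=
          (Nat.prime_of_mem_primeFactors hp).factorization_pos_of_dvd hq0.ne'
            (Nat.dvd_of_mem_primeFactors hp)
        omega
      rw [h1]
      simp
    rw [this, Nat.cast_prod]
    refine Finset.prod_congr rfl fun p hp => ?_
    have hp2 : 2 ≤ p := (Nat.prime_of_mem_primeFactors hp).two_le
    have hp0 : (p : ℝ) ≠ 0 := by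
      have : 0 < p := by omega
      positivity
    rw [if_pos ⟨hp, hp⟩, Nat.cast_sub (by omega)]
    field_simp
    ring
  · rw [if_neg hqr]
    have : ∃ p ∈ q.primeFactors ∪ r.primeFactors, ¬ (p ∈ q.primeFactors ∧ p ∈ r.primeFactors) := by
      by_contra hcon
      push Not at hcon
      apply hqr
      have hsub : q.primeFactors = r.primeFactors := by
        ext p
        constructor
        · intro h
          exact (hcon p (Finset.mem_union_left _ h)).2
        · intro h
          exact (hcon p (Finset.mem_union_right _ h)).1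
      rw [← Nat.prod_primeFactors_of_squarefree hqs, ← Nat.prod_primeFactors_of_squarefree hrs,
        hsub]
    obtain ⟨p, hp, hpn⟩ := this
    rw [Finset.prod_eq_zero hp, mul_zero]
    rw [if_neg hpn]
    have hpp : p.Prime := by
      rcases Finset.mem_union.mp hp with h | h
      · exact Nat.prime_of_mem_primeFactors h
      · exact Nat.prime_of_mem_primeFactors h
    have hp0 : (p : ℝ) ≠ 0 := by
      have := hpp.pos
      positivity
    field_simp
    ring

/-- orthogonality -/
theorem AA_mean (R : ℕ) : ∑ y ∈ range (primorial R), AA R y ^ 2 = primorial R * gS R := by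
  have h1 : ∀ y ∈ range (primorial R), AA R y ^ 2 = ∑ q ∈ sqf R, ∑ r ∈ sqf R,
      (1 / (q.totient : ℝ)) * (1 / (r.totient : ℝ)) *
        ((∏ p ∈ q.primeFactors, (1 - (p : ℝ) * ind p y)) *
          (∏ p ∈ r.primeFactors, (1 - (p : ℝ) * ind p y))) := by
    intro y _
    unfold AA
    rw [sq, Finset.sum_mul_sum]
    refine Finset.sum_congr rfl fun q _ => Finset.sum_congr rfl fun r _ => ?_
    ring
  rw [Finset.sum_congr rfl h1, Finset.sum_comm]
  have h2 : ∀ q ∈ sqf R, ∑ y ∈ range (primorial R), ∑ r ∈ sqf R,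
      (1 / (q.totient : ℝ)) * (1 / (r.totient : ℝ)) *
        ((∏ p ∈ q.primeFactors, (1 - (p : ℝ) * ind p y)) *
          (∏ p ∈ r.primeFactors, (1 - (p : ℝ) * ind p y))) =
      (primorial R : ℝ) * (1 / (q.totient : ℝ)) := by
    intro q hq
    rw [Finset.sum_comm]
    have h3 : ∀ r ∈ sqf R, ∑ y ∈ range (primorial R),
        (1 / (q.totient : ℝ)) * (1 / (r.totient : ℝ)) *
        ((∏ p ∈ q.primeFactors, (1 - (p : ℝ) * ind p y)) *
          (∏ p ∈ r.primeFactors, (1 - (p : ℝ) * ind p y))) =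
        if q = r then (1 / (q.totient : ℝ)) * (1 / (r.totient : ℝ)) *
          ((primorial R : ℝ) * q.totient) else 0 := by
      intro r hr
      rw [← Finset.mul_sum, SELC_orth R q r hq hr, mul_ite, mul_zero]
    rw [Finset.sum_congr rfl h3, Finset.sum_ite_eq, if_pos hq]
    have h4 : (q.totient : ℝ) ≠ 0 := by
      have := Nat.totient_pos.mpr (SELC_mem_sqf hq).1
      positivity
    field_simp
  rw [Finset.sum_congr rfl h2, ← Finset.mul_sum]
  rfl

theorem AA_sum (R : ℕ) (u : ℤ) (l : ℕ) :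
    ∑ y ∈ range l, AA R (u + y) ^ 2 ≤ l * gS R + (R : ℝ) ^ 6 := by
  have h0 := AA_rep R 0
  have h1 := rep_mul h0 h0
  have h2 := rep_transfer (primorial_pos R) h1 u l
  have h3 : ∀ n : ℤ, AA R (n - 0) * AA R (n - 0) = AA R n ^ 2 := by
    intro n
    rw [sub_zero, sq]
  simp only [h3] at h2
  rw [AA_mean] at h2
  have h4 : (primorial R : ℝ) ≠ 0 := by
    have := primorial_pos R
    positivity
  have h5 : (l : ℝ) / (primorial R : ℝ) * ((primorial R : ℝ) * gS R) = l * gS R := by
    field_simp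
  rw [h5] at h2
  have h6 := (abs_le.mp h2).2
  have h7 : (R : ℝ) ^ 3 * (R : ℝ) ^ 3 = (R : ℝ) ^ 6 := by ring
  linarith

theorem sS_sum (R : ℕ) (hR : 1 ≤ R) (n : ℤ) (u l : ℕ) :
    ∑ y ∈ range l, sS R (n - (u + y : ℕ)) ≤ (l * gS R + (R : ℝ) ^ 6) / gS R ^ 2 := by
  have hg : 0 < gS R := lt_of_lt_of_le one_pos (one_le_gS R hR)
  have h1 : ∑ y ∈ range l, sS R (n - (u + y : ℕ)) =
      (∑ y ∈ range l, AA R ((n - u - l + 1) + y) ^ 2) / gS R ^ 2 := by
    unfold sS
    rw [← Finset.sum_div]
    congr 1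
    rw [← Finset.sum_range_reflect]
    refine Finset.sum_congr rfl fun y hy => ?_
    have hy' : y < l := mem_range.mp hy
    congr 2
    push_cast [Nat.cast_sub (show y ≤ l - 1 by omega), Nat.cast_sub (show 1 ≤ l by omega)]
    ring
  rw [h1]
  exact div_le_div_of_nonneg_right (AA_sum R _ l) (by positivity)

end RD
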