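import Pool.Agent.LibRD13.Def
import Pool.Agent.LibRD13.Sela
import Pool.Agent.LibRD13.Selc
import Pool.Agent.LibRD13.Bru

set_option autoImplicit false
set_option linter.unusedSectionVars false

namespace RD

open Finset


section col

variable {ι : Type} [Fintype ι] [DecidableEq ι]

theorem PRD_cast (u y n : ℕ) (h : u + y < n) :
    ((n : ℤ) - (u + y : ℕ)) = ((n - (u + y) : ℕ) : ℤ) := by
  rw [Nat.cast_sub h.le]

theorem PRD_rough (z u y n : ℕ) (h : u + y + z < n) (hp : (n - (u + y)).Prime) (p : ℕ)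
    (hpp : p.Prime) (hpz : p ≤ z) : ¬ (p : ℤ) ∣ ((n : ℤ) - (u + y : ℕ)) := by
  rw [PRD_cast u y n (by omega), Int.natCast_dvd_natCast]
  intro hd
  rcases (Nat.dvd_prime hp).1 hd with h1 | h1
  · exact hpp.one_lt.ne' h1
  · omega

theorem PRD_card (u l n : ℕ) :
    (NB u l n : ℝ) = ∑ y ∈ range l, if u + y < n ∧ (n - (u + y)).Prime then (1 : ℝ) else 0 := by
  unfold NB
  rw [Finset.card_filter]
  push_cast
  rfl

/-! ### row PRD -/

theorem NB_triv (R : ℕ) (hR : 1 ≤ R) (u l n : ℕ) (hn : u + l + R < n) :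
    (NB u l n : ℝ) ≤ (l * gS R + (R : ℝ) ^ 6) / gS R ^ 2 := by
  refine le_trans ?_ (sS_sum R hR n u l)
  rw [PRD_card]
  refine Finset.sum_le_sum fun y hy => ?_
  rw [Finset.mem_range] at hy
  split_ifs with h
  · rw [sS_rough R hR _ (PRD_rough R u y n (by omega) h.2)]
  · exact sS_nonneg _ _

/-- `n - k` prime larger than all sieving primes: both weights are `1`; all weights are
nonnegative -/
theorem NB_le (R : ℕ) (hR : 1 ≤ R) (pr : ι → ℕ) (hp : ∀ i, (pr i).Prime) (t : ℕ) (v : ℝ)
    (hv : 0 ≤ v) (u l n z : ℕ) (hRz : R ≤ z) (hz : ∀ i, pr i ≤ z) (hn : u + l + z < n) :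
    (NB u l n : ℝ) ≤ v * ((l * gS R + (R : ℝ) ^ 6) / gS R ^ 2) + GB R pr t v u l n := by
  have h1 : (NB u l n : ℝ) ≤ ∑ y ∈ range l, sS R (n - (u + y : ℕ)) * WP pr t (n - (u + y : ℕ)) := by
    rw [PRD_card]
    refine Finset.sum_le_sum fun y hy => ?_
    rw [Finset.mem_range] at hy
    split_ifs with h
    · have hr := PRD_rough z u y n (by omega) h.2
      rw [sS_rough R hR _ (fun p hpp hpR => hr p hpp (hpR.trans hRz)), one_mul]
      have hc : (fun i => decide ((pr i : ℤ) ∣ ((n : ℤ) - (u + y : ℕ)))) = fun _ => false := by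
        funext i
        exact decide_eq_false (hr (pr i) (hp i) (hz i))
      unfold WP WC cnt
      rw [hc]
      simp [brun_zero]
    · exact mul_nonneg (sS_nonneg _ _) (brun_nonneg _ _)
  have h2 : ∑ y ∈ range l, sS R (n - (u + y : ℕ)) * WP pr t (n - (u + y : ℕ))
      = v * ∑ y ∈ range l, sS R (n - (u + y : ℕ)) + GB R pr t v u l n := by
    unfold GB
    rw [Finset.mul_sum, ← Finset.sum_add_distrib]
    refine Finset.sum_congr rfl fun y _ => ?_
    ring
  rw [h2] at h1
  have h3 := mul_le_mul_of_nonneg_left (sS_sum R hR n u l) hv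
  linarith

theorem NB_split (u l m n : ℕ) : NB u (m * l) n = ∑ q : Fin m, NB (u + q * l) l n := by
  rw [Fin.sum_univ_eq_sum_range (fun q => NB (u + q * l) l n) m]
  induction m with
  | zero => simp [NB]
  | succ m ih =>
    rw [Finset.sum_range_succ, ← ih]
    unfold NB
    rw [Finset.card_filter, Finset.card_filter, Finset.card_filter, Nat.succ_mul,
      Finset.sum_range_add]
    congr 1
    refine Finset.sum_congr rfl fun y _ => ?_
    rw [add_assoc u]

end col

end RD
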