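import Pool.Agent.LibRD13.Def
import Pool.Agent.LibRD13.Repa
import Pool.Agent.LibRD13.Repb
import Pool.Agent.LibRD13.Selb

/-! Row REPG of MP_699cde_nt. -/

set_option autoImplicit false
set_option linter.unusedSectionVars false

namespace RD

open Finset


theorem REPG_choose (n k : ℕ) : ∑ j ∈ range (k + 1), n.choose j ≤ (n + 1) ^ k := by
  rw [add_pow]
  refine sum_le_sum fun j hj => ?_
  have hj' : j ≤ k := by
    have := mem_range.1 hj
    omega
  have h1 : n.choose j ≤ n ^ j := Nat.choose_le_pow n j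
  have h2 : 1 ≤ k.choose j := Nat.choose_pos hj'
  calc n.choose j ≤ n ^ j := h1
    _ ≤ n ^ j * 1 ^ (k - j) * k.choose j := by
        rw [one_pow, mul_one]
        exact Nat.le_mul_of_pos_right _ h2

section REPGcol

variable {ι : Type} [Fintype ι] [DecidableEq ι]

theorem REPG_prod_dvd (pr : ι → ℕ) (hp : ∀ i, (pr i).Prime) (hinj : Function.Injective pr)
    (A : Finset ι) (m : ℤ) : ((∏ i ∈ A, pr i : ℕ) : ℤ) ∣ m ↔ ∀ i ∈ A, (pr i : ℤ) ∣ m := by
  constructor
  · intro h i hi
    refine dvd_trans ?_ h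
    exact_mod_cast dvd_prod_of_mem pr hi
  · intro h
    rw [Nat.cast_prod]
    refine Finset.prod_dvd_of_coprime ?_ h
    intro i _ j _ hij
    show IsCoprime (pr i : ℤ) (pr j : ℤ)
    exact Nat.isCoprime_iff_coprime.2
      ((Nat.coprime_primes (hp i) (hp j)).2 fun he => hij (hinj he))

theorem REPG_WP (pr : ι → ℕ) (hp : ∀ i, (pr i).Prime) (hinj : Function.Injective pr) (t : ℕ)
    (m : ℤ) : WP pr t m =
      ∑ A ∈ (univ : Finset (Finset ι)).filter (fun A => #A < 2 * t + 1),
        (-1 : ℝ) ^ #A * ind (∏ i ∈ A, pr i) m := by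
  classical
  set D : Finset ι := univ.filter (fun i => (pr i : ℤ) ∣ m) with hD
  have hcnt : cnt (fun i => decide ((pr i : ℤ) ∣ m)) = #D := by
    simp [cnt, hD]
  have hind : ∀ A : Finset ι, ind (∏ i ∈ A, pr i) m = if A ⊆ D then 1 else 0 := by
    intro A
    have : ((∏ i ∈ A, pr i : ℕ) : ℤ) ∣ m ↔ A ⊆ D := by
      rw [REPG_prod_dvd pr hp hinj A m]
      constructor
      · intro h i hi
        rw [hD, mem_filter]
        exact ⟨mem_univ _, h i hi⟩
      · intro h i hi
        have := h hi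
        rw [hD, mem_filter] at this
        exact this.2
    unfold ind
    by_cases hA : A ⊆ D
    · rw [if_pos (this.2 hA), if_pos hA]
    · rw [if_neg (fun h => hA (this.1 h)), if_neg hA]
  have hlhs : WP pr t m = ∑ j ∈ range (2 * t + 1), (-1 : ℝ) ^ j * ((#D).choose j : ℝ) := by
    unfold WP WC brun
    rw [hcnt]
  rw [hlhs]
  have hrhs : ∑ A ∈ (univ : Finset (Finset ι)).filter (fun A => #A < 2 * t + 1),
        (-1 : ℝ) ^ #A * ind (∏ i ∈ A, pr i) m
      = ∑ j ∈ range (2 * t + 1), ∑ A ∈ powersetCard j D, (-1 : ℝ) ^ #A := by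
    have h1 : ∑ A ∈ (univ : Finset (Finset ι)).filter (fun A => #A < 2 * t + 1),
        (-1 : ℝ) ^ #A * ind (∏ i ∈ A, pr i) m
        = ∑ A ∈ D.powerset.filter (fun A => #A < 2 * t + 1), (-1 : ℝ) ^ #A := by
      have h2 : ∀ A : Finset ι, (-1 : ℝ) ^ #A * ind (∏ i ∈ A, pr i) m
          = if A ⊆ D then (-1 : ℝ) ^ #A else 0 := by
        intro A
        rw [hind A]
        split_ifs <;> simp
      rw [sum_congr rfl fun A _ => h2 A, ← sum_filter, filter_filter]
      refine sum_congr ?_ fun _ _ => rfl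
      ext A
      simp only [mem_filter, mem_univ, true_and, mem_powerset]
      tauto
    rw [h1]
    rw [← sum_fiberwise_of_maps_to (s := D.powerset.filter (fun A => #A < 2 * t + 1))
      (t := range (2 * t + 1)) (g := fun A => #A)]
    · refine sum_congr rfl fun j hj => sum_congr ?_ fun _ _ => rfl
      ext A
      simp only [mem_filter, mem_powerset, mem_powersetCard]
      constructor
      · rintro ⟨⟨h1, _⟩, h3⟩
        exact ⟨h1, h3⟩
      · rintro ⟨h1, h3⟩
        refine ⟨⟨h1, ?_⟩, h3⟩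
        rw [h3]
        exact mem_range.1 hj
    · intro A hA
      exact mem_range.2 (mem_filter.1 hA).2
  rw [hrhs]
  refine sum_congr rfl fun j _ => ?_
  rw [sum_congr rfl (g := fun _ => (-1 : ℝ) ^ j)
    (fun A hA => by rw [(mem_powersetCard.1 hA).2])]
  rw [sum_const, card_powersetCard, nsmul_eq_mul, mul_comm]

theorem REPG_card (t : ℕ) :
    ((#((univ : Finset (Finset ι)).filter (fun A => #A < 2 * t + 1)) : ℕ) : ℝ)
      ≤ ((Fintype.card ι : ℝ) + 1) ^ (2 * t) := by
  classical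
  have h1 : #((univ : Finset (Finset ι)).filter (fun A => #A < 2 * t + 1))
      = ∑ j ∈ range (2 * t + 1), (Fintype.card ι).choose j := by
    rw [card_eq_sum_card_fiberwise (f := fun A => #A) (t := range (2 * t + 1))]
    · refine sum_congr rfl fun j hj => ?_
      have : (((univ : Finset (Finset ι)).filter (fun A => #A < 2 * t + 1)).filter
          fun A => #A = j) = powersetCard j (univ : Finset ι) := by
        ext A
        simp only [mem_filter, mem_univ, true_and, mem_powersetCard, subset_univ]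
        constructor
        · rintro ⟨_, h3⟩
          exact h3
        · intro h3
          refine ⟨?_, h3⟩
          rw [h3]
          exact mem_range.1 hj
      rw [this, card_powersetCard, card_univ]
    · intro A hA
      have hA' := (mem_filter.1 (mem_coe.1 hA)).2
      exact mem_coe.2 (mem_range.2 hA')
  have h2 := REPG_choose (Fintype.card ι) (2 * t)
  rw [h1]
  exact_mod_cast h2

/-- `brun t #{i | pr i ∣ m} = ∑_{|A| ≤ 2 t} (-1)^|A| ind (∏_{i ∈ A} pr i) m` -/
theorem WP_rep (pr : ι → ℕ) (hp : ∀ i, (pr i).Prime) (hinj : Function.Injective pr) (t : ℕ)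
    (k : ℤ) :
    Rep (∏ i, pr i) (((Fintype.card ι : ℝ) + 1) ^ (2 * t)) (fun n => WP pr t (n - k)) := by
  classical
  have h1 : ∀ A ∈ (univ : Finset (Finset ι)).filter (fun A => #A < 2 * t + 1),
      Rep (∏ i, pr i) 1 (fun n => (-1 : ℝ) ^ #A * ind (∏ i ∈ A, pr i) (n - k)) := by
    intro A _
    have hd : 0 < ∏ i ∈ A, pr i := prod_pos fun i _ => (hp i).pos
    have hdv : (∏ i ∈ A, pr i) ∣ ∏ i, pr i := prod_dvd_prod_of_subset _ _ _ (subset_univ _)
    have h2 := rep_smul ((-1 : ℝ) ^ #A) (rep_ind hd hdv k)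
    have h3 : |(-1 : ℝ) ^ #A| * 1 = 1 := by simp
    rw [h3] at h2
    exact h2
  have h4 := rep_sum _ (fun _ => (1 : ℝ)) _ h1
  have h5 : (fun n : ℤ => WP pr t (n - k)) = fun n : ℤ =>
      ∑ A ∈ (univ : Finset (Finset ι)).filter (fun A => #A < 2 * t + 1),
        (-1 : ℝ) ^ #A * ind (∏ i ∈ A, pr i) (n - k) := by
    funext n
    exact REPG_WP pr hp hinj t (n - k)
  rw [h5]
  refine rep_mono h4 ?_
  rw [sum_const, nsmul_eq_mul, mul_one]
  exact REPG_card t

theorem GB_rep (R : ℕ) (hR : 1 ≤ R) (pr : ι → ℕ) (hp : ∀ i, (pr i).Prime)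
    (hinj : Function.Injective pr) (t : ℕ) (v : ℝ) (hv : |v| ≤ 1) (u l : ℕ) :
    Rep (primorial R * ∏ i, pr i)
      (l * ((R : ℝ) ^ 6 * (((Fintype.card ι : ℝ) + 1) ^ (2 * t) + 1))) (GB R pr t v u l) := by
  have hpos : 0 < primorial R * ∏ i, pr i :=
    Nat.mul_pos (primorial_pos R) (prod_pos fun i _ => (hp i).pos)
  have h1 : ∀ y ∈ range l, Rep (primorial R * ∏ i, pr i)
      ((R : ℝ) ^ 6 * (((Fintype.card ι : ℝ) + 1) ^ (2 * t) + 1))
      (fun n : ℤ => sS R (n - (u + y : ℕ)) * (WP pr t (n - (u + y : ℕ)) - v)) := by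
    intro y _
    have hs := rep_dvd_mono (sS_rep R hR ((u + y : ℕ) : ℤ)) (Dvd.intro (∏ i, pr i) rfl)
    have hw := rep_dvd_mono (WP_rep pr hp hinj t ((u + y : ℕ) : ℤ))
      (Dvd.intro_left (primorial R) rfl)
    have hc : Rep (primorial R * ∏ i, pr i) 1 (fun _ : ℤ => -v) := by
      refine rep_mono (rep_const hpos (-v)) ?_
      rw [abs_neg]
      exact hv
    have hwc := rep_add hw hc
    have hm := rep_mul hs hwc
    have he : (fun n : ℤ => sS R (n - (u + y : ℕ)) * (WP pr t (n - (u + y : ℕ)) - v))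
        = fun n : ℤ => sS R (n - ((u + y : ℕ) : ℤ)) * (WP pr t (n - ((u + y : ℕ) : ℤ)) + -v) := by
      funext n
      rw [sub_eq_add_neg (WP pr t _) v]
    rw [he]
    exact hm
  have h2 := rep_sum _ (fun _ => (R : ℝ) ^ 6 * (((Fintype.card ι : ℝ) + 1) ^ (2 * t) + 1)) _ h1
  have h3 : GB R pr t v u l = fun n : ℤ =>
      ∑ y ∈ range l, sS R (n - (u + y : ℕ)) * (WP pr t (n - (u + y : ℕ)) - v) := by
    funext n
    rfl
  rw [h3]
  refine rep_mono h2 ?_
  rw [sum_const, card_range, nsmul_eq_mul]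

end REPGcol

end RD
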