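import Pool.Agent.LibRD13.Def
import Pool.Prelude.Def_F_e101448e
import Pool.Agent.LibLargeSieve.GBound

/-! MP_699cde_nt, row TRI: dyadic blocks and Brun-Titchmarsh. -/

set_option autoImplicit false
set_option linter.unusedSectionVars false

namespace RD

open Finset

theorem TRI_two_pow (j : ℕ) : 2 * j + 3 ≤ 3 * 2 ^ j := by
  induction j with
  | zero => norm_num
  | succ j ih => rw [pow_succ]; omega

theorem TRI_NB_le (i n : ℕ) : NB (2 ^ i) (2 ^ i) n ≤ 2 ^ i := by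
  unfold NB
  exact le_trans (card_filter_le _ _) (by simp)

theorem TRI_big (i n j : ℕ) (hj : 1 ≤ j) (hij : 2 * j + 1 ≤ i) :
    (NB (2 ^ i) (2 ^ i) n : ℝ) ≤ 2 ^ j + 18 * 2 ^ i / (j * Real.log 2) := by
  classical
  set F : Finset ℕ := {y ∈ range (2 ^ i) | 2 ^ i + y < n ∧ (n - (2 ^ i + y)).Prime} with hF
  set P : Finset ℕ := F.image (fun y => n - (2 ^ i + y)) with hP
  have hcard : #F = #P := by
    rw [hP, card_image_of_injOn]
    intro a ha b hb hab
    simp only [hF, coe_filter, mem_range, Set.mem_setOf_eq] at ha hb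
    simp only at hab
    omega
  have hNB : NB (2 ^ i) (2 ^ i) n = #F := rfl
  have hPp : ∀ p ∈ P, p.Prime ∧ n - 2 ^ (i + 1) + 1 ≤ p ∧ p < n - 2 ^ (i + 1) + 1 + 1 * 2 ^ i := by
    intro p hp
    rw [hP, mem_image] at hp
    obtain ⟨y, hy, rfl⟩ := hp
    simp only [hF, mem_filter, mem_range] at hy
    refine ⟨hy.2.2, ?_, ?_⟩
    · have h2 : 2 ^ (i + 1) = 2 ^ i + 2 ^ i := by ring
      omega
    · have h2 : 2 ^ (i + 1) = 2 ^ i + 2 ^ i := by ring
      omega
  have hsplit : #P ≤ 2 ^ j + #{p ∈ P | 2 ^ j < p} := by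
    have h1 := card_filter_add_card_filter_not (s := P) (fun p => 2 ^ j < p)
    have h2 : #{p ∈ P | ¬ 2 ^ j < p} ≤ 2 ^ j := by
      have h3 : {p ∈ P | ¬ 2 ^ j < p} ⊆ Icc 1 (2 ^ j) := by
        intro p hp
        rw [mem_filter] at hp
        rw [mem_Icc]
        have := (hPp p hp.1).1.one_lt
        omega
      have h4 := card_le_card h3
      simpa using h4
    omega
  have hBT := LSieve.brun_titchmarsh {p ∈ P | 2 ^ j < p}
    (fun p hp => (hPp p (mem_filter.mp hp).1).1) (2 ^ j) (2 ^ i) 1 0 (n - 2 ^ (i + 1) + 1)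
    (by
      rw [← pow_mul]
      exact Nat.pow_lt_pow_right (by norm_num) (by omega))
    (fun p hp => (mem_filter.mp hp).2) (by norm_num)
    (fun p _ => by simp [Nat.ModEq, Nat.mod_one])
    (fun p hp => (hPp p (mem_filter.mp hp).1).2)
  have hlog : Real.log ((2 ^ j : ℕ) : ℝ) = j * Real.log 2 := by
    push_cast
    rw [Real.log_pow]
  rw [hlog] at hBT
  have hl2 : 0 < Real.log 2 := Real.log_pos (by norm_num)
  have hj0 : (0 : ℝ) < j := by exact_mod_cast hj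
  have hpos : 0 < (j : ℝ) * Real.log 2 := by positivity
  have hBT2 : ((#{p ∈ P | 2 ^ j < p} : ℕ) : ℝ) ≤ 18 * 2 ^ i / (j * Real.log 2) := by
    rw [le_div_iff₀ hpos]
    refine le_trans hBT (le_of_eq ?_)
    simp
  rw [hNB, hcard]
  have h5 : (#P : ℝ) ≤ ((2 ^ j + #{p ∈ P | 2 ^ j < p} : ℕ) : ℝ) := by exact_mod_cast hsplit
  push_cast at h5
  linarith

theorem NB_BT : ∃ C : ℝ, 0 < C ∧ ∀ i n : ℕ, (NB (2 ^ i) (2 ^ i) n : ℝ) ≤ C * 2 ^ i / (i + 1) := by
  refine ⟨200, by norm_num, ?_⟩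
  intro i n
  have hi0 : (0 : ℝ) < (i : ℝ) + 1 := by positivity
  by_cases hi : i ≤ 2
  · have h1 : (NB (2 ^ i) (2 ^ i) n : ℝ) ≤ 2 ^ i := by exact_mod_cast TRI_NB_le i n
    refine le_trans h1 ?_
    rw [le_div_iff₀ hi0]
    have h2 : (i : ℝ) ≤ 2 := by exact_mod_cast hi
    have h3 : (0 : ℝ) < 2 ^ i := by positivity
    nlinarith
  · push Not at hi
    obtain ⟨j, hj⟩ : ∃ j, j = (i - 1) / 2 := ⟨_, rfl⟩
    have hj1 : 1 ≤ j := by omega
    have hji : 2 * j + 1 ≤ i := by omega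
    have hij : i ≤ 2 * j + 2 := by omega
    have h1 := TRI_big i n j hj1 hji
    have hl2 : (0.69 : ℝ) < Real.log 2 := by have := Real.log_two_gt_d9; linarith
    have hj0 : (1 : ℝ) ≤ j := by exact_mod_cast hj1
    have hij' : (i : ℝ) ≤ 2 * j + 2 := by exact_mod_cast hij
    refine le_trans h1 ?_
    rw [le_div_iff₀ hi0]
    have h2 : (2 : ℝ) ^ j * (i + 1) ≤ 3 * 2 ^ i := by
      have h3 : ((2 * j + 3 : ℕ) : ℝ) ≤ ((3 * 2 ^ j : ℕ) : ℝ) := by exact_mod_cast TRI_two_pow j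
      push_cast at h3
      have h4 : (2 : ℝ) ^ j * 2 ^ j ≤ 2 ^ i := by
        rw [← pow_add]
        exact pow_le_pow_right₀ (by norm_num) (by omega)
      have h5 : (0 : ℝ) < 2 ^ j := by positivity
      nlinarith
    have h6 : 18 * 2 ^ i / ((j : ℝ) * Real.log 2) * (i + 1) ≤ 150 * 2 ^ i := by
      have hpos : 0 < (j : ℝ) * Real.log 2 := by positivity
      rw [div_mul_eq_mul_div, div_le_iff₀ hpos]
      have h7 : (0 : ℝ) < 2 ^ i := by positivity
      have h8 : 18 * ((i : ℝ) + 1) ≤ 150 * (j * Real.log 2) := by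
        nlinarith
      nlinarith
    have h9 : (0 : ℝ) < 2 ^ i := by positivity
    calc (2 ^ j + 18 * 2 ^ i / ((j : ℝ) * Real.log 2)) * (i + 1)
        = 2 ^ j * (i + 1) + 18 * 2 ^ i / ((j : ℝ) * Real.log 2) * (i + 1) := by ring
      _ ≤ 3 * 2 ^ i + 150 * 2 ^ i := add_le_add h2 h6
      _ ≤ 200 * 2 ^ i := by nlinarith

theorem f_le (n : ℕ) : N5dc7309f.f n ≤
    ∑ i ∈ range (Nat.log 2 n + 1), (NB (2 ^ i) (2 ^ i) n : ℝ) / 2 ^ i := by
  classical
  unfold N5dc7309f.f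
  set P : Finset ℕ := (range n).filter Prime with hP
  have hPm : ∀ p ∈ P, p < n ∧ p.Prime := by
    intro p hp
    rw [hP, mem_filter, mem_range] at hp
    exact ⟨hp.1, hp.2.nat_prime⟩
  have h1 : ∀ p ∈ P, (1 : ℝ) / (n - p : ℝ) ≤ 1 / 2 ^ (Nat.log 2 (n - p)) := by
    intro p hp
    obtain ⟨hlt, -⟩ := hPm p hp
    have h2 : 2 ^ Nat.log 2 (n - p) ≤ n - p := Nat.pow_log_le_self 2 (by omega)
    have h3 : ((2 ^ Nat.log 2 (n - p) : ℕ) : ℝ) ≤ ((n - p : ℕ) : ℝ) := by exact_mod_cast h2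
    rw [Nat.cast_sub hlt.le] at h3
    push_cast at h3
    exact one_div_le_one_div_of_le (by positivity) h3
  have hmaps : ∀ p ∈ P, Nat.log 2 (n - p) ∈ range (Nat.log 2 n + 1) := by
    intro p hp
    rw [mem_range]
    have : Nat.log 2 (n - p) ≤ Nat.log 2 n := Nat.log_mono_right (Nat.sub_le _ _)
    omega
  refine le_trans (sum_le_sum h1) ?_
  rw [← sum_fiberwise_of_maps_to hmaps]
  refine sum_le_sum ?_
  intro i _
  have h4 : ∑ p ∈ P with Nat.log 2 (n - p) = i, (1 : ℝ) / 2 ^ (Nat.log 2 (n - p)) =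
      (#{p ∈ P | Nat.log 2 (n - p) = i} : ℝ) / 2 ^ i := by
    rw [sum_congr rfl (g := fun _ => (1 : ℝ) / 2 ^ i)]
    · rw [sum_const, nsmul_eq_mul]
      ring
    · intro p hp
      rw [(mem_filter.mp hp).2]
  rw [h4]
  refine div_le_div_of_nonneg_right ?_ (by positivity)
  have h5 : #{p ∈ P | Nat.log 2 (n - p) = i} ≤ NB (2 ^ i) (2 ^ i) n := by
    unfold NB
    refine card_le_card_of_injOn (fun p => n - p - 2 ^ i) ?_ ?_
    · intro p hp
      simp only [coe_filter, Set.mem_setOf_eq] at hp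
      obtain ⟨hlt, hpr⟩ := hPm p hp.1
      have h6 : 2 ^ Nat.log 2 (n - p) ≤ n - p := Nat.pow_log_le_self 2 (by omega)
      have h7 : n - p < 2 ^ (Nat.log 2 (n - p) + 1) := Nat.lt_pow_succ_log_self (by norm_num) _
      rw [hp.2] at h6 h7
      have h8 : 2 ^ (i + 1) = 2 ^ i + 2 ^ i := by ring
      have h9 := hpr.pos
      simp only [coe_filter, mem_range, Set.mem_setOf_eq]
      refine ⟨by omega, by omega, ?_⟩
      have h10 : n - (2 ^ i + (n - p - 2 ^ i)) = p := by omega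
      rw [h10]
      exact hpr
    · intro p hp r hr hpq
      simp only [coe_filter, Set.mem_setOf_eq] at hp hr
      obtain ⟨hlt, -⟩ := hPm p hp.1
      obtain ⟨hlt', -⟩ := hPm r hr.1
      have h6 : 2 ^ Nat.log 2 (n - p) ≤ n - p := Nat.pow_log_le_self 2 (by omega)
      have h6' : 2 ^ Nat.log 2 (n - r) ≤ n - r := Nat.pow_log_le_self 2 (by omega)
      rw [hp.2] at h6
      rw [hr.2] at h6'
      simp only at hpq
      omega
  exact_mod_cast h5

end RD
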