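import Pool.Agent.LibRD13.Def
import Pool.Agent.LibRD13.Repa
import Pool.Agent.LibRD13.Repb
import Pool.Agent.LibRD13.Repc
import Pool.Agent.LibRD13.Sela
import Pool.Agent.LibRD13.Selb
import Pool.Agent.LibRD13.Selc
import Pool.Agent.LibRD13.Bru
import Pool.Agent.LibRD13.Col
import Pool.Agent.LibRD13.Blk
import Pool.Agent.LibRD13.Dom
import Pool.Agent.LibRD13.Crt
import Pool.Agent.LibRD13.Gam
import Pool.Agent.LibRD13.Mean
import Pool.Agent.LibRD13.Repg
import Pool.Agent.LibRD13.Prd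
import Pool.Agent.LibRD13.Cnt
import Pool.Agent.LibRD13.One
import Pool.Agent.LibRD13.Mer
import Pool.Agent.LibRD13.Tri
import Pool.Prelude.Def_F_e101448e
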