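import Mathlib

/-!
Reciprocals of distances to smaller primes (MP_699cde_nt): definitions.
-/

set_option autoImplicit false
set_option linter.unusedSectionVars false

namespace RD

open Finset

/-- `F` is a combination of indicators of residue classes with moduli dividing `Λ`, of total weight
at most `Γ` -/
def Rep (Λ : ℕ) (Γ : ℝ) (F : ℤ → ℝ) : Prop :=
  ∃ (ι : Type) (_ : Fintype ι) (c : ι → ℝ) (q : ι → ℕ) (b : ι → ℤ),
    (∀ i, 0 < q i ∧ q i ∣ Λ) ∧
    (∀ n, F n = ∑ i, c i * (if (q i : ℤ) ∣ n - b i then 1 else 0)) ∧ ∑ i, |c i| ≤ Γ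

/-- indicator of divisibility -/
noncomputable def ind (d : ℕ) (n : ℤ) : ℝ := if (d : ℤ) ∣ n then 1 else 0

/-- squarefree numbers up to `R` -/
def sqf (R : ℕ) : Finset ℕ := (Icc 1 R).filter Squarefree

/-- the Selberg sum -/
noncomputable def gS (R : ℕ) : ℝ := ∑ q ∈ sqf R, (1 : ℝ) / q.totient

/-- the Selberg weight before squaring -/
noncomputable def AA (R : ℕ) (m : ℤ) : ℝ :=
  ∑ q ∈ sqf R, (1 / (q.totient : ℝ)) * ∏ p ∈ q.primeFactors, (1 - (p : ℝ) * ind p m)

/-- the Selberg weight: nonnegative, `1` at integers without prime factor `≤ R` -/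
noncomputable def sS (R : ℕ) (m : ℤ) : ℝ := AA R m ^ 2 / gS R ^ 2

/-- Brun's truncated alternating sum -/
noncomputable def brun (t w : ℕ) : ℝ := ∑ j ∈ range (2 * t + 1), (-1) ^ j * (w.choose j : ℝ)

section col

variable {ι : Type} [Fintype ι] [DecidableEq ι]

/-- weight of a column: independent Bernoulli variables of parameters `β i` -/
noncomputable def cw (β : ι → ℝ) (c : ι → Bool) : ℝ := ∏ i, (if c i = true then β i else 1 - β i)

/-- expectation for one column -/
noncomputable def EC (β : ι → ℝ) (g : (ι → Bool) → ℝ) : ℝ := ∑ c : ι → Bool, cw β c * g c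

/-- number of ones -/
def cnt (c : ι → Bool) : ℕ := #{i | c i = true}

/-- Brun weight of a column -/
noncomputable def WC (t : ℕ) (c : ι → Bool) : ℝ := brun t (cnt c)

/-- Brun weight of an integer with respect to the primes `pr i` -/
noncomputable def WP (pr : ι → ℕ) (t : ℕ) (m : ℤ) : ℝ :=
  WC t fun i => decide ((pr i : ℤ) ∣ m)

/-- Bernoulli parameters that dominate the residue classes, `k` positions -/
noncomputable def bet (pr : ι → ℕ) (k : ℕ) (i : ι) : ℝ := 1 / ((pr i : ℝ) - k + 1)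

/-- density factor -/
noncomputable def gam (pr : ι → ℕ) (k : ℕ) : ℝ := ∏ i, Real.exp (((k : ℝ) / ((pr i : ℝ) - k)) ^ 2)

/-- centred weighted sum over one block `k ∈ [u, u + l)` -/
noncomputable def GB (R : ℕ) (pr : ι → ℕ) (t : ℕ) (v : ℝ) (u l : ℕ) (n : ℤ) : ℝ :=
  ∑ y ∈ range l, sS R (n - (u + y : ℕ)) * (WP pr t (n - (u + y : ℕ)) - v)

end col

/-- primes in the block `n - k`, `k ∈ [u, u + l)` -/
noncomputable def NB (u l : ℕ) (n : ℕ) : ℕ := #{y ∈ range l | u + y < n ∧ (n - (u + y)).Prime}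

end RD
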