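import Pool.Agent.LibRD13.All

/-! MP_699cde_nt, final assembly, part A: one scale with explicit parameters. -/

set_option autoImplicit false
set_option linter.unusedSectionVars false

namespace RD

open Finset Filter Topology

/-- parameters of the scale `2 ^ i` -/
theorem scale_R {i : ℕ} (hi : 400 ≤ i) :
    (i : ℝ) / 400 ≤ ((i / 200 : ℕ) : ℝ) ∧ ((i / 200 : ℕ) : ℝ) ≤ i / 200 ∧
      (i : ℝ) / 800 * Real.log 2 ≤ gS (2 ^ (i / 200)) := by
  have h1 : ((i / 200 : ℕ) : ℝ) ≤ (i : ℝ) / 200 := by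
    have := Nat.cast_div_le (α := ℝ) (m := i) (n := 200)
    simpa using this
  have h2 : (i : ℝ) / 400 ≤ ((i / 200 : ℕ) : ℝ) := by
    have h3 : i ≤ 400 * (i / 200) := by omega
    have h4 : (i : ℝ) ≤ 400 * ((i / 200 : ℕ) : ℝ) := by exact_mod_cast h3
    linarith
  refine ⟨h2, h1, ?_⟩
  have h3 := gS_ge (2 ^ (i / 200))
  have h4 : Real.log ((2 ^ (i / 200) : ℕ) : ℝ) = ((i / 200 : ℕ) : ℝ) * Real.log 2 := by
    push_cast
    rw [Real.log_pow]
  rw [h4] at h3
  have h5 : 0 < Real.log 2 := Real.log_pos (by norm_num)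
  nlinarith

/-- the choice of the sieving primes, expectation of the Brun weight -/
theorem scale_P : ∃ C : ℝ, 1 ≤ C ∧ ∀ (k : ℕ) (δ : ℝ), 2 ≤ k → 0 < δ → δ ≤ 1 →
    ∃ (P : Finset ℕ) (t z : ℕ), (∀ p ∈ P, p.Prime ∧ k ^ 2 + k < p ∧ p ≤ z) ∧
      Real.log z ≤ C * Real.log k / δ ∧ 1 ≤ z ∧ k ≤ z ∧ (t : ℝ) ≤ 8 * Real.log (8 / δ) ∧
      EC (bet (fun p : {x // x ∈ P} => (p : ℕ)) k) (WC t) ≤ δ / 4 ∧
      EC (bet (fun p : {x // x ∈ P} => (p : ℕ)) k) (fun c => WC t c ^ 2) ≤
        Real.exp 18 / δ ^ 3 := by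
  obtain ⟨C, hC, hsel⟩ := select
  refine ⟨32 * C, by linarith, fun k δ hk hδ hδ1 => ?_⟩
  have hk1 : (2 : ℝ) ≤ k := by exact_mod_cast hk
  have hlogk : 0 < Real.log k := Real.log_pos (by linarith)
  set H : ℕ := 2 * k ^ 2 with hH
  have hlogH : Real.log H ≤ 3 * Real.log k := by
    have h1 : ((H : ℕ) : ℝ) ≤ (k : ℝ) ^ 3 := by
      rw [hH]; push_cast
      nlinarith [sq_nonneg (k : ℝ), mul_le_mul_of_nonneg_right hk1 (sq_nonneg (k : ℝ))]
    have h2 : (0 : ℝ) < (H : ℝ) := by
      rw [hH]; push_cast; positivity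
    have h3 := Real.log_le_log h2 h1
    rw [Real.log_pow] at h3
    exact_mod_cast h3
  have hlogH0 : 0 ≤ Real.log H := Real.log_natCast_nonneg _
  set κ : ℝ := Real.log (8 / δ) with hκ
  have h8 : (8 : ℝ) ≤ 8 / δ := by
    rw [le_div_iff₀ hδ]; linarith
  have hexpκ : Real.exp κ = 8 / δ := Real.exp_log (by positivity)
  have hκ2 : 2 ≤ κ := by
    rw [hκ, Real.le_log_iff_exp_le (by positivity)]
    have h1 : Real.exp 2 ≤ 8 := by
      have := Real.exp_one_lt_d9
      have h2 : Real.exp 2 = Real.exp 1 ^ 2 := by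
        rw [← Real.exp_nat_mul]; norm_num
      rw [h2]
      have h3 : (0 : ℝ) < Real.exp 1 := Real.exp_pos 1
      nlinarith
    linarith
  set y : ℝ := C * Real.log H * Real.exp κ with hy
  have hy0 : 0 ≤ y := by
    rw [hy]; positivity
  set z : ℕ := ⌈Real.exp y⌉₊ + k with hz
  have hez : Real.exp y ≤ z := by
    rw [hz]; push_cast
    have := Nat.le_ceil (Real.exp y)
    have hk0 : (0 : ℝ) ≤ k := by positivity
    linarith
  have hz1 : 1 ≤ z := by
    have : k ≤ z := by rw [hz]; exact Nat.le_add_left _ _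
    omega
  have hyz : y ≤ Real.log z := by
    rw [Real.le_log_iff_exp_le (by exact_mod_cast hz1)]
    exact hez
  obtain ⟨P, hP, hP1, hP2⟩ := hsel H z κ (by rw [hH]; nlinarith) (by linarith) hyz
  set pr : {x // x ∈ P} → ℕ := fun p => (p : ℕ) with hpr
  have hinj : Function.Injective pr := Subtype.val_injective
  have hbig : ∀ i, k ^ 2 + k < pr i := by
    intro i
    have h1 := (hP i.1 i.2).2.1
    rw [hH] at h1
    change k ^ 2 + k < i.1
    nlinarith
  have hsum : ∑ i, (1 : ℝ) / pr i = ∑ p ∈ P, (1 : ℝ) / p := by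
    rw [← Finset.sum_coe_sort P (fun p => (1 : ℝ) / (p : ℝ))]
  have hkp : ∀ i, k < pr i := fun i => lt_of_le_of_lt (Nat.le_add_left _ _) (hbig i)
  have hbm := bet_mem pr k hkp
  have hlo : κ ≤ ∑ i, bet pr k i := by
    have := bet_sum_ge pr k (by omega) hkp
    rw [hsum] at this
    linarith
  have hhi : ∑ i, bet pr k i ≤ κ + 3 := by
    have := bet_sum_le pr hinj k (by omega) hbig
    rw [hsum] at this
    linarith
  set t : ℕ := ⌈3 * (κ + 3)⌉₊ with ht
  have ht1 : 3 * (κ + 3) ≤ t := Nat.le_ceil _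
  have ht2 : (t : ℝ) ≤ 3 * (κ + 3) + 1 := (Nat.ceil_lt_add_one (by linarith)).le
  refine ⟨P, t, z, ?_, ?_, hz1, by rw [hz]; exact Nat.le_add_left _ _, ?_, ?_, ?_⟩
  · intro p hp
    exact ⟨(hP p hp).1, hbig ⟨p, hp⟩, (hP p hp).2.2⟩
  · have h1 : (z : ℝ) ≤ Real.exp y * (k + 2) := by
      rw [hz]; push_cast
      have h2 := (Nat.ceil_lt_add_one (Real.exp_pos y).le).le
      have h3 : 1 ≤ Real.exp y := Real.one_le_exp hy0
      nlinarith
    have h2 : Real.log z ≤ y + Real.log (k + 2) := by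
      have h3 := Real.log_le_log (by exact_mod_cast hz1) h1
      rw [Real.log_mul (Real.exp_pos y).ne' (by positivity), Real.log_exp] at h3
      exact h3
    have h3 : Real.log (k + 2) ≤ 2 * Real.log k := by
      have h4 : (k : ℝ) + 2 ≤ (k : ℝ) ^ 2 := by nlinarith
      have h5 := Real.log_le_log (by positivity) h4
      rw [Real.log_pow] at h5
      exact_mod_cast h5
    have h4 : y ≤ 24 * C * Real.log k / δ := by
      rw [hy, hexpκ]
      have h5 : C * Real.log H * (8 / δ) = C * Real.log H * 8 / δ := by ring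
      rw [h5]
      have h6 : C * Real.log H * 8 ≤ 24 * C * Real.log k := by
        have := mul_le_mul_of_nonneg_left hlogH (by linarith : (0 : ℝ) ≤ C)
        linarith
      exact div_le_div_of_nonneg_right h6 hδ.le
    have h5 : Real.log k ≤ Real.log k / δ := by
      rw [le_div_iff₀ hδ]
      nlinarith
    have h6 : 2 * Real.log k ≤ 2 * C * (Real.log k / δ) := by nlinarith
    have h7 : 32 * C * Real.log k / δ = 24 * C * Real.log k / δ + 8 * C * (Real.log k / δ) := by
      ring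
    have h8 : 0 ≤ C * (Real.log k / δ) := by positivity
    linarith
  · linarith
  · have h1 := EC_W_le (bet pr k) hbm t
    have h2 : Real.exp (-∑ i, bet pr k i) ≤ δ / 8 := by
      have h3 : Real.exp (-∑ i, bet pr k i) ≤ Real.exp (-κ) :=
        Real.exp_le_exp.2 (by linarith)
      rw [Real.exp_neg κ, hexpκ] at h3
      rw [inv_div] at h3
      exact h3
    have h3 : Real.exp (8 * ∑ i, bet pr k i) / 8 ^ (2 * t) ≤ δ / 8 := by
      have h4 : Real.exp (12 * (κ + 3)) ≤ 8 ^ (2 * t) := by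
        have h5 : (8 : ℝ) ^ (2 * t) = Real.exp (Real.log 8 * (2 * t)) := by
          rw [← Real.rpow_natCast, Real.rpow_def_of_pos (by norm_num)]
          push_cast; rfl
        rw [h5]
        apply Real.exp_le_exp.2
        have h6 : 2 ≤ Real.log 8 := by
          rw [Real.le_log_iff_exp_le (by norm_num)]
          have := Real.exp_one_lt_d9
          have h2 : Real.exp 2 = Real.exp 1 ^ 2 := by
            rw [← Real.exp_nat_mul]; norm_num
          rw [h2]
          have h3 : (0 : ℝ) < Real.exp 1 := Real.exp_pos 1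
          nlinarith
        nlinarith
      have h5 : Real.exp (8 * ∑ i, bet pr k i) ≤ Real.exp (8 * (κ + 3)) :=
        Real.exp_le_exp.2 (by linarith)
      have h6 : Real.exp (8 * ∑ i, bet pr k i) / 8 ^ (2 * t) ≤
          Real.exp (8 * (κ + 3)) / Real.exp (12 * (κ + 3)) := by
        gcongr
      rw [← Real.exp_sub] at h6
      have h7 : Real.exp (8 * (κ + 3) - 12 * (κ + 3)) ≤ Real.exp (-κ) :=
        Real.exp_le_exp.2 (by linarith)
      rw [Real.exp_neg κ, hexpκ, inv_div] at h7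
      linarith
    linarith
  · have h1 := EC_Wsq_le (bet pr k) hbm t
    have h2 : Real.exp (3 * ∑ i, bet pr k i) ≤ Real.exp (3 * (κ + 3)) :=
      Real.exp_le_exp.2 (by linarith)
    have h3 : Real.exp (3 * (κ + 3)) = Real.exp 9 * (8 / δ) ^ 3 := by
      rw [← hexpκ, ← Real.exp_nat_mul, ← Real.exp_add]
      congr 1
      push_cast; ring
    have h4 : Real.exp 9 * (8 / δ) ^ 3 ≤ Real.exp 18 / δ ^ 3 := by
      have h5 : Real.exp 9 * (8 / δ) ^ 3 = Real.exp 9 * 512 / δ ^ 3 := by
        rw [div_pow]; ring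
      rw [h5]
      gcongr
      have h6 : Real.exp 18 = Real.exp 9 * Real.exp 9 := by
        rw [← Real.exp_add]; norm_num
      rw [h6]
      gcongr
      have h7 : (512 : ℝ) = 2 ^ 9 := by norm_num
      have h8 : Real.exp 9 = Real.exp 1 ^ 9 := by
        rw [← Real.exp_nat_mul]; norm_num
      rw [h7, h8]
      have h9 := Real.exp_one_gt_d9
      gcongr
      linarith
    linarith

end RD
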